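import Mathlib
import Pool.Agent.FCE.T4.Sym
import Pool.Agent.FCE.T4.Group
import Pool.Agent.OPG.Mg_MP_fce80c_co.G007

section

set_option autoImplicit false

/-!
The algebraic contradiction in the proof that the graphs are `K_4`-free (MP_fce80c_co).
-/

namespace Pool.Agent.FCE.T4

variable {F : Type} [Field F] [CharP F 2]

theorem cube_eq (hcube : ∀ x : F, x ^ 3 = 1 → x = 1) {x y : F} (hy : y ≠ 0) (h : x ^ 3 = y ^ 3) :
    x = y := by
  have h1 : (x / y) ^ 3 = 1 := by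
    rw [div_pow, h, div_self (pow_ne_zero 3 hy)]
  have h2 := hcube _ h1
  rwa [div_eq_one_iff_eq hy] at h2

theorem final_algebra (hcube : ∀ x : F, x ^ 3 = 1 → x = 1)
    {T12 T21 T13 T31 T14 T41 T23 T32 T24 T42 T34 T43 : F}
    {n123 n124 n134 n213 n214 n234 n312 n314 n324 n412 n413 n423 : F}
    (p12 : T12 ≠ 0) (p21 : T21 ≠ 0) (p13 : T13 ≠ 0) (p31 : T31 ≠ 0) (p14 : T14 ≠ 0)
    (p41 : T41 ≠ 0) (p23 : T23 ≠ 0) (p32 : T32 ≠ 0) (p24 : T24 ≠ 0) (p42 : T42 ≠ 0)
    (p34 : T34 ≠ 0) (p43 : T43 ≠ 0)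
    (q123 : n123 ≠ 0) (q124 : n124 ≠ 0) (q134 : n134 ≠ 0) (q213 : n213 ≠ 0) (q214 : n214 ≠ 0)
    (q234 : n234 ≠ 0) (q312 : n312 ≠ 0) (q314 : n314 ≠ 0) (q324 : n324 ≠ 0) (q412 : n412 ≠ 0)
    (q413 : n413 ≠ 0) (q423 : n423 ≠ 0)
    (r123 : T23 * T32 * n213 * n312 = T12 * T13 * n123 ^ 2)
    (r124 : T24 * T42 * n214 * n412 = T12 * T14 * n124 ^ 2)
    (r134 : T34 * T43 * n314 * n413 = T13 * T14 * n134 ^ 2)
    (r213 : T13 * T31 * n123 * n312 = T21 * T23 * n213 ^ 2)
    (r214 : T14 * T41 * n124 * n412 = T21 * T24 * n214 ^ 2)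
    (r234 : T34 * T43 * n324 * n423 = T23 * T24 * n234 ^ 2)
    (r314 : T14 * T41 * n134 * n413 = T31 * T34 * n314 ^ 2)
    (r324 : T24 * T42 * n234 * n423 = T32 * T34 * n324 ^ 2)
    (e2 : (T14 * T41) * (T24 * T42) * (n134 * n234 * n412) / ((T12 * T21) * n123 * n213)
      + (T14 * T41) * (T34 * T43) * (n124 * n324 * n413) / ((T13 * T31) * n123 * n312)
      + (T24 * T42) * (T34 * T43) * (n214 * n314 * n423) / ((T23 * T32) * n213 * n312) = 0) :
    False := by
  have h2 : (2 : F) = 0 := CharTwo.two_eq_zero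
  set P : F := (T12 * T21 * n123 * n124 * n213 * n214) * (T34 * T43 * n314 * n324 * n413 * n423)
    with hP
  set Q : F := (T13 * T31 * n123 * n134 * n312 * n314) * (T24 * T42 * n214 * n234 * n412 * n423)
    with hQ
  set R : F := (T14 * T41 * n124 * n134 * n412 * n413) * (T23 * T32 * n213 * n234 * n312 * n324)
    with hR
  have hP0 : P ≠ 0 := by simp only [hP]; simp [*]
  have hQ0 : Q ≠ 0 := by simp only [hQ]; simp [*]
  have hR0 : R ≠ 0 := by simp only [hR]; simp [*]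
  have k1 : Q ^ 2 = P * R := by
    have hD : (T12 * T14 * n124 ^ 2) * (T34 * T43 * n314 * n413) * (T21 * T23 * n213 ^ 2)
        * (T14 * T41 * n134 * n413) * (T32 * T34 * n324 ^ 2) ≠ 0 := by simp [*]
    apply mul_right_cancel₀ hD
    have e : Q ^ 2 * ((T12 * T14 * n124 ^ 2) * (T34 * T43 * n314 * n413) * (T21 * T23 * n213 ^ 2)
        * (T14 * T41 * n134 * n413) * (T32 * T34 * n324 ^ 2))
        = P * R * ((T24 * T42 * n214 * n412) * (T13 * T14 * n134 ^ 2) * (T13 * T31 * n123 * n312)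
        * (T31 * T34 * n314 ^ 2) * (T24 * T42 * n234 * n423)) := by
      simp only [hP, hQ, hR]
      ring
    rw [e, r124, ← r134, r213, ← r314, r324]
  have k2 : R ^ 2 = P * Q := by
    have hD : (T12 * T13 * n123 ^ 2) * (T21 * T24 * n214 ^ 2) * (T34 * T43 * n324 * n423)
        * (T31 * T34 * n314 ^ 2) * (T24 * T42 * n234 * n423) ≠ 0 := by simp [*]
    apply mul_right_cancel₀ hD
    have e : R ^ 2 * ((T12 * T13 * n123 ^ 2) * (T21 * T24 * n214 ^ 2) * (T34 * T43 * n324 * n423)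
        * (T31 * T34 * n314 ^ 2) * (T24 * T42 * n234 * n423))
        = P * Q * ((T23 * T32 * n213 * n312) * (T14 * T41 * n124 * n412) * (T23 * T24 * n234 ^ 2)
        * (T14 * T41 * n134 * n413) * (T32 * T34 * n324 ^ 2)) := by
      simp only [hP, hQ, hR]
      ring
    rw [e, r123, r214, ← r234, r314, ← r324]
  have k3 : Q = R := by
    apply cube_eq hcube hR0
    calc Q ^ 3 = Q ^ 2 * Q := by ring
      _ = (P * Q) * R := by rw [k1]; ring
      _ = R ^ 3 := by rw [← k2]; ring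
  have k4 : Q = P := by
    rw [← k3, pow_two] at k1
    exact mul_right_cancel₀ hQ0 k1
  set N : F := (T14 * T41) * (T24 * T42) * (T34 * T43) * (n134 * n234 * n412 * n124 * n324 * n413
    * n214 * n314 * n423) with hN
  have hN0 : N ≠ 0 := by simp only [hN]; simp [*]
  have f1 : (T14 * T41) * (T24 * T42) * (n134 * n234 * n412) / ((T12 * T21) * n123 * n213)
      = N / P := by
    rw [div_eq_div_iff (by simp [*]) hP0]
    simp only [hP, hN]
    ring
  have f2 : (T14 * T41) * (T34 * T43) * (n124 * n324 * n413) / ((T13 * T31) * n123 * n312)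
      = N / Q := by
    rw [div_eq_div_iff (by simp [*]) hQ0]
    simp only [hQ, hN]
    ring
  have f3 : (T24 * T42) * (T34 * T43) * (n214 * n314 * n423) / ((T23 * T32) * n213 * n312)
      = N / R := by
    rw [div_eq_div_iff (by simp [*]) hR0]
    simp only [hR, hN]
    ring
  rw [f1, f2, f3, ← k3, k4] at e2
  have f4 : N / P = 0 := by linear_combination e2 - N / P * h2
  rcases div_eq_zero_iff.1 f4 with h | h
  · exact hN0 h
  · exact hP0 h

end Pool.Agent.FCE.T4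
end

section

set_option autoImplicit false

/-!
Expansion of the symplectic form in a hyperbolic basis (MP_fce80c_co).
-/

namespace Pool.Agent.FCE.T4

variable {F : Type} [Field F] [CharP F 2]

theorem om_self (x : Fin 6 → F) : om x x = 0 := by
  have h2 : (2 : F) = 0 := CharTwo.two_eq_zero
  unfold om
  linear_combination (x 0 * x 3 + x 1 * x 4 + x 2 * x 5) * h2

/-- Three orthogonal hyperbolic pairs form a basis. -/
theorem om_expand {u1 v1 u2 v2 u3 v3 : Fin 6 → F} {h1 h2 h3 : F} (hh1 : h1 ≠ 0) (hh2 : h2 ≠ 0)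
    (hh3 : h3 ≠ 0) (e1 : om u1 v1 = h1) (e2 : om u2 v2 = h2) (e3 : om u3 v3 = h3)
    (z1 : om u1 u2 = 0) (z2 : om u1 v2 = 0) (z3 : om u1 u3 = 0) (z4 : om u1 v3 = 0)
    (z5 : om v1 u2 = 0) (z6 : om v1 v2 = 0) (z7 : om v1 u3 = 0) (z8 : om v1 v3 = 0)
    (z9 : om u2 u3 = 0) (z10 : om u2 v3 = 0) (z11 : om v2 u3 = 0) (z12 : om v2 v3 = 0)
    (Y Y' : Fin 6 → F) :
    om Y Y' = (om Y v1 * om u1 Y' + om Y u1 * om v1 Y') / h1
      + (om Y v2 * om u2 Y' + om Y u2 * om v2 Y') / h2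
      + (om Y v3 * om u3 Y' + om Y u3 * om v3 Y') / h3 := by
  have e1' : om v1 u1 = h1 := by rw [om_comm, e1]
  have e2' : om v2 u2 = h2 := by rw [om_comm, e2]
  have e3' : om v3 u3 = h3 := by rw [om_comm, e3]
  have z1' : om u2 u1 = 0 := by rw [om_comm, z1]
  have z2' : om v2 u1 = 0 := by rw [om_comm, z2]
  have z3' : om u3 u1 = 0 := by rw [om_comm, z3]
  have z4' : om v3 u1 = 0 := by rw [om_comm, z4]
  have z5' : om u2 v1 = 0 := by rw [om_comm, z5]
  have z6' : om v2 v1 = 0 := by rw [om_comm, z6]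
  have z7' : om u3 v1 = 0 := by rw [om_comm, z7]
  have z8' : om v3 v1 = 0 := by rw [om_comm, z8]
  have z9' : om u3 u2 = 0 := by rw [om_comm, z9]
  have z10' : om v3 u2 = 0 := by rw [om_comm, z10]
  have z11' : om u3 v2 = 0 := by rw [om_comm, z11]
  have z12' : om v3 v2 = 0 := by rw [om_comm, z12]
  have key : ∀ c : Fin 6 → F, ∀ Z : Fin 6 → F,
      Z = c 0 • u1 + c 1 • v1 + c 2 • u2 + c 3 • v2 + c 4 • u3 + c 5 • v3 →
      om Z v1 = c 0 * h1 ∧ om Z u1 = c 1 * h1 ∧ om Z v2 = c 2 * h2 ∧ om Z u2 = c 3 * h2 ∧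
      om Z v3 = c 4 * h3 ∧ om Z u3 = c 5 * h3 ∧
      ∀ W, om Z W = c 0 * om u1 W + c 1 * om v1 W + c 2 * om u2 W + c 3 * om v2 W
        + c 4 * om u3 W + c 5 * om v3 W := by
    intro c Z hZ
    have hW : ∀ W, om Z W = c 0 * om u1 W + c 1 * om v1 W + c 2 * om u2 W + c 3 * om v2 W
        + c 4 * om u3 W + c 5 * om v3 W := by
      intro W
      rw [hZ]
      simp only [om_add_left, om_smul_left]
    refine ⟨?_, ?_, ?_, ?_, ?_, ?_, hW⟩
    all_goals
      rw [hW]
      simp only [e1, e2, e3, e1', e2', e3', z1, z2, z3, z4, z5, z6, z7, z8, z9, z10, z11, z12,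
        z1', z2', z3', z4', z5', z6', z7', z8', z9', z10', z11', z12', om_self, mul_zero,
        add_zero, zero_add]
  have hli : LinearIndependent F ![u1, v1, u2, v2, u3, v3] := by
    rw [Fintype.linearIndependent_iff]
    intro c hc
    have hc' : (0 : Fin 6 → F)
        = c 0 • u1 + c 1 • v1 + c 2 • u2 + c 3 • v2 + c 4 • u3 + c 5 • v3 := by
      rw [← hc]
      simp [Fin.sum_univ_succ, Fin.succ]
      try abel
    obtain ⟨k0, k1, k2, k3, k4, k5, -⟩ := key c 0 hc'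
    have hz : ∀ W : Fin 6 → F, om 0 W = 0 := by
      intro W
      simp [om]
    rw [hz] at k0 k1 k2 k3 k4 k5
    intro i
    fin_cases i
    · exact (mul_eq_zero.1 k0.symm).resolve_right hh1
    · exact (mul_eq_zero.1 k1.symm).resolve_right hh1
    · exact (mul_eq_zero.1 k2.symm).resolve_right hh2
    · exact (mul_eq_zero.1 k3.symm).resolve_right hh2
    · exact (mul_eq_zero.1 k4.symm).resolve_right hh3
    · exact (mul_eq_zero.1 k5.symm).resolve_right hh3
  have hspan := hli.span_eq_top_of_card_eq_finrank' (by simp)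
  have hY : Y ∈ Submodule.span F (Set.range ![u1, v1, u2, v2, u3, v3]) := by
    rw [hspan]; trivial
  obtain ⟨c, hc⟩ := (Submodule.mem_span_range_iff_exists_fun F).1 hY
  have hc' : Y = c 0 • u1 + c 1 • v1 + c 2 • u2 + c 3 • v2 + c 4 • u3 + c 5 • v3 := by
    rw [← hc]
    simp [Fin.sum_univ_succ, Fin.succ]
    try abel
  obtain ⟨k0, k1, k2, k3, k4, k5, k6⟩ := key c Y hc'
  rw [k6 Y', k0, k1, k2, k3, k4, k5]
  field_simp
  ring

end Pool.Agent.FCE.T4
end

section

set_option autoImplicit false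

/-!
The graph, its degree and its quadratic form (MP_fce80c_co).
-/

namespace Pool.Agent.FCE.T4

open Finset

variable {F : Type} [Field F] [CharP F 2]

/-- A nontrivial product `g a s * g a' s'` with `a ≠ a'` determines its factors. -/
theorem rep_unique {a s a' s' c r c' r' : F} (hs : s ≠ 0) (hs' : s' ≠ 0) (hr : r ≠ 0)
    (hr' : r' ≠ 0) (ha : a ≠ a') (hc : c ≠ c')
    (h : g a s * g a' s' = g c r * g c' r') : a = c ∧ s = r ∧ a' = c' ∧ s' = r' := by
  have hk := congrArg Hx.k h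
  have hb := congrArg Hx.b h
  have hcc := congrArg Hx.c h
  have hd := congrArg Hx.d h
  have he := congrArg Hx.e h
  simp only [mul_k, mul_b, mul_c, mul_d, mul_e, g_k, g_b, g_c, g_d, g_e] at hk hb hcc hd he
  have haa : a - a' ≠ 0 := sub_ne_zero.mpr ha
  have haa' : a' - a ≠ 0 := sub_ne_zero.mpr ha.symm
  have h1 : s * ((a - a') * ((a - c) * (a - c'))) = 0 := by
    linear_combination hd - (a' + c + c') * hcc + (a' * c + a' * c' + c * c') * hb
      - a' * c * c' * hk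
  have h2 : s' * ((a' - a) * ((a' - c) * (a' - c'))) = 0 := by
    linear_combination hd - (a + c + c') * hcc + (a * c + a * c' + c * c') * hb
      - a * c * c' * hk
  have h3 : a = c ∨ a = c' := by
    rcases mul_eq_zero.mp ((mul_eq_zero.mp ((mul_eq_zero.mp h1).resolve_left hs)).resolve_left haa)
      with h | h
    · exact Or.inl (sub_eq_zero.mp h)
    · exact Or.inr (sub_eq_zero.mp h)
  have h4 : a' = c ∨ a' = c' := by
    rcases mul_eq_zero.mp ((mul_eq_zero.mp ((mul_eq_zero.mp h2).resolve_left hs')).resolve_left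
      haa') with h | h
    · exact Or.inl (sub_eq_zero.mp h)
    · exact Or.inr (sub_eq_zero.mp h)
  rcases h3 with h3 | h3 <;> rcases h4 with h4 | h4
  · exact absurd (h3.trans h4.symm) ha
  · subst h3
    subst h4
    have e1 : (a - a') * (s - r) = 0 := by linear_combination hb - a' * hk
    have e2 : (a' - a) * (s' - r') = 0 := by linear_combination hb - a * hk
    exact ⟨rfl, sub_eq_zero.mp ((mul_eq_zero.mp e1).resolve_left haa), rfl,
      sub_eq_zero.mp ((mul_eq_zero.mp e2).resolve_left haa')⟩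
  · subst h3
    subst h4
    exfalso
    have e1 : (a - a') * (s - r') = 0 := by linear_combination hb - a' * hk
    have e2 : (a' - a) * (s' - r) = 0 := by linear_combination hb - a * hk
    have e3 : s = r' := sub_eq_zero.mp ((mul_eq_zero.mp e1).resolve_left haa)
    have e4 : s' = r := sub_eq_zero.mp ((mul_eq_zero.mp e2).resolve_left haa')
    subst e3
    subst e4
    have e5 : s * s' * ((a' - a) * ((a + a') * (a + a'))) = 0 := by linear_combination he
    have e6 : a + a' ≠ 0 := by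
      intro h0
      apply ha
      exact CharTwo.add_eq_zero.mp h0
    exact (mul_ne_zero (mul_ne_zero hs hs') (mul_ne_zero haa' (mul_ne_zero e6 e6))) e5
  · exact absurd (h3.trans h4.symm) ha

/-- The graph: `l ~ m` iff `m = l g(a,s) g(a',s')` with `s, s' ≠ 0` and `ε a ≠ ε a'`. -/
def graph (ε : F → ℝ) : SimpleGraph (Hx F) where
  Adj l m := ∃ a s a' s' : F, s ≠ 0 ∧ s' ≠ 0 ∧ ε a ≠ ε a' ∧ m = l * g a s * g a' s'
  symm := ⟨by
    rintro l m ⟨a, s, a', s', hs, hs', he, rfl⟩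
    exact ⟨a', s', a, s, hs', hs, he.symm, by rw [mul_g_mul_g, mul_g_mul_g]⟩⟩
  loopless := ⟨by
    rintro l ⟨a, s, a', s', hs, hs', he, h⟩
    have h1 : g a s * g a' s' = (1 : Hx F) := by
      rw [mul_assoc] at h
      exact (mul_eq_left.mp h.symm)
    have hk := congrArg Hx.k h1
    have hb := congrArg Hx.b h1
    simp only [mul_k, mul_b, g_k, g_b, one_k, one_b] at hk hb
    have h2 : s = s' := CharTwo.add_eq_zero.mp hk
    subst h2
    have h3 : s * (a + a') = 0 := by linear_combination hb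
    have h4 : a = a' := CharTwo.add_eq_zero.mp ((mul_eq_zero.mp h3).resolve_left hs)
    exact he (congrArg ε h4)⟩

variable [Fintype F]

open Classical in
/-- Sums over neighbourhoods. -/
theorem sum_adj (ε : F → ℝ) (φ : Hx F → ℝ) (l : Hx F) :
    ∑ m, (if (graph ε).Adj l m then φ m else 0)
      = ∑ a, ∑ a', (if ε a ≠ ε a' then
          ∑ s ∈ univ.erase (0 : F), ∑ s' ∈ univ.erase (0 : F), φ (l * g a s * g a' s') else 0) := by
  set S : Finset ((F × F) × (F × F)) :=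
    ((univ ×ˢ univ).filter fun p : F × F => ε p.1 ≠ ε p.2) ×ˢ
      ((univ.erase (0 : F)) ×ˢ (univ.erase (0 : F))) with hS
  have hR : ∑ a, ∑ a', (if ε a ≠ ε a' then
          ∑ s ∈ univ.erase (0 : F), ∑ s' ∈ univ.erase (0 : F), φ (l * g a s * g a' s') else 0)
      = ∑ p ∈ S, φ (l * g p.1.1 p.2.1 * g p.1.2 p.2.2) := by
    rw [hS, Finset.sum_product, Finset.sum_filter, Finset.sum_product]
    refine Finset.sum_congr rfl fun a _ => Finset.sum_congr rfl fun a' _ => ?_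
    by_cases hc : ε a ≠ ε a'
    · rw [if_pos hc, if_pos hc, Finset.sum_product]
    · rw [if_neg hc, if_neg hc]
  rw [hR, ← Finset.sum_filter]
  symm
  refine Finset.sum_bij (fun p _ => l * g p.1.1 p.2.1 * g p.1.2 p.2.2) ?_ ?_ ?_ ?_
  · rintro ⟨⟨a, a'⟩, ⟨s, s'⟩⟩ hp
    rw [hS] at hp
    simp only [Finset.mem_product, Finset.mem_filter, Finset.mem_univ, true_and, and_true,
      Finset.mem_erase] at hp
    simp only [Finset.mem_filter, Finset.mem_univ, true_and]
    exact ⟨a, s, a', s', hp.2.1, hp.2.2, hp.1, rfl⟩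
  · rintro ⟨⟨a, a'⟩, ⟨s, s'⟩⟩ hp ⟨⟨c, c'⟩, ⟨r, r'⟩⟩ hq h
    rw [hS] at hp hq
    simp only [Finset.mem_product, Finset.mem_filter, Finset.mem_univ, true_and, and_true,
      Finset.mem_erase] at hp hq
    simp only [mul_assoc, mul_right_inj] at h
    have ha : a ≠ a' := fun h0 => hp.1 (congrArg ε h0)
    have hc : c ≠ c' := fun h0 => hq.1 (congrArg ε h0)
    obtain ⟨h1, h2, h3, h4⟩ := rep_unique hp.2.1 hp.2.2 hq.2.1 hq.2.2 ha hc h
    subst h1
    subst h2
    subst h3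
    subst h4
    rfl
  · intro m hm
    simp only [Finset.mem_filter, Finset.mem_univ, true_and] at hm
    obtain ⟨a, s, a', s', hs, hs', he, rfl⟩ := hm
    refine ⟨((a, a'), (s, s')), ?_, rfl⟩
    rw [hS]
    simp only [Finset.mem_product, Finset.mem_filter, Finset.mem_univ, true_and, and_true,
      Finset.mem_erase]
    exact ⟨he, hs, hs'⟩
  · intro p _
    rfl

/-- The projection operators, times `q`. -/
noncomputable def P (x : Hx F → ℝ) (a : F) (h : Hx F) : ℝ := ∑ s, x (h * g a s)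

omit [CharP F 2] [Fintype F] [Field F] in
open Classical in
theorem G2_sign (ε : F → ℝ) (hε : ∀ a, ε a = 1 ∨ ε a = -1) (a a' : F) (t : ℝ) :
    2 * (if ε a ≠ ε a' then t else 0) = (1 - ε a * ε a') * t := by
  rcases hε a with h | h <;> rcases hε a' with h' | h' <;> rw [h, h'] <;> norm_num

open Classical in
theorem G2_erase (x : Hx F → ℝ) (a : F) (h : Hx F) :
    ∑ s ∈ univ.erase (0 : F), x (h * g a s) = P x a h - x h := by
  rw [Finset.sum_erase_eq_sub (Finset.mem_univ _), g_zero, mul_one]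
  rfl

theorem G2_shift (x : Hx F → ℝ) (a s a' s' : F) :
    ∑ l : Hx F, x l * x (l * g a s * g a' s') = ∑ l : Hx F, x (l * g a s) * x (l * g a' s') := by
  rw [← Equiv.sum_comp (Equiv.mulRight (g a s)) (fun l => x l * x (l * g a s * g a' s'))]
  refine Finset.sum_congr rfl fun l _ => ?_
  simp only [Equiv.coe_mulRight]
  rw [mul_g_mul_g]

open Classical in
theorem G2_form (ε : F → ℝ) (x : Hx F → ℝ) :
    OPG.bil (graph ε) x x = ∑ a, ∑ a', (if ε a ≠ ε a' then
      ∑ l : Hx F, (P x a l - x l) * (P x a' l - x l) else 0) := by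
  unfold OPG.bil
  have h1 : ∀ l : Hx F, ∑ m, (if (graph ε).Adj l m then x l * x m else 0) =
      ∑ a, ∑ a', (if ε a ≠ ε a' then
          ∑ s ∈ univ.erase (0 : F), ∑ s' ∈ univ.erase (0 : F), x l * x (l * g a s * g a' s')
          else 0) := fun l => sum_adj ε (fun m => x l * x m) l
  rw [Finset.sum_congr rfl fun l _ => h1 l, Finset.sum_comm]
  refine Finset.sum_congr rfl fun a _ => ?_
  rw [Finset.sum_comm]
  refine Finset.sum_congr rfl fun a' _ => ?_
  by_cases h : ε a ≠ ε a'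
  · simp only [if_pos h]
    calc ∑ l : Hx F, ∑ s ∈ univ.erase (0 : F), ∑ s' ∈ univ.erase (0 : F),
        x l * x (l * g a s * g a' s')
        = ∑ s ∈ univ.erase (0 : F), ∑ l : Hx F, ∑ s' ∈ univ.erase (0 : F),
          x l * x (l * g a s * g a' s') := Finset.sum_comm
      _ = ∑ s ∈ univ.erase (0 : F), ∑ s' ∈ univ.erase (0 : F), ∑ l : Hx F,
          x l * x (l * g a s * g a' s') := Finset.sum_congr rfl fun s _ => Finset.sum_comm
      _ = ∑ s ∈ univ.erase (0 : F), ∑ s' ∈ univ.erase (0 : F), ∑ l : Hx F,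
          x (l * g a s) * x (l * g a' s') :=
          Finset.sum_congr rfl fun s _ => Finset.sum_congr rfl fun s' _ => G2_shift x a s a' s'
      _ = ∑ s ∈ univ.erase (0 : F), ∑ l : Hx F, ∑ s' ∈ univ.erase (0 : F),
          x (l * g a s) * x (l * g a' s') := Finset.sum_congr rfl fun s _ => Finset.sum_comm
      _ = ∑ l : Hx F, ∑ s ∈ univ.erase (0 : F), ∑ s' ∈ univ.erase (0 : F),
          x (l * g a s) * x (l * g a' s') := Finset.sum_comm
      _ = ∑ l : Hx F, (P x a l - x l) * (P x a' l - x l) := by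
          refine Finset.sum_congr rfl fun l _ => ?_
          rw [← G2_erase, ← G2_erase, Finset.sum_mul_sum]
  · simp only [if_neg h, Finset.sum_const_zero]

/-- The quadratic form of the graph. -/
theorem bil_graph (ε : F → ℝ) (hε : ∀ a, ε a = 1 ∨ ε a = -1) (x : Hx F → ℝ) :
    2 * OPG.bil (graph ε) x x = ∑ h, (∑ a, (P x a h - x h)) ^ 2
      - ∑ h, (∑ a, ε a * (P x a h - x h)) ^ 2 := by
  classical
  have e1 : ∀ h : Hx F, (∑ a, (P x a h - x h)) ^ 2 - (∑ a, ε a * (P x a h - x h)) ^ 2 =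
      ∑ a, ∑ a', (1 - ε a * ε a') * ((P x a h - x h) * (P x a' h - x h)) := by
    intro h
    rw [sq, sq, Finset.sum_mul_sum, Finset.sum_mul_sum, ← Finset.sum_sub_distrib]
    refine Finset.sum_congr rfl fun a _ => ?_
    rw [← Finset.sum_sub_distrib]
    refine Finset.sum_congr rfl fun a' _ => ?_
    ring
  rw [← Finset.sum_sub_distrib, Finset.sum_congr rfl fun h _ => e1 h, G2_form, Finset.mul_sum]
  rw [Finset.sum_comm]
  refine Finset.sum_congr rfl fun a _ => ?_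
  rw [Finset.mul_sum, Finset.sum_comm]
  refine Finset.sum_congr rfl fun a' _ => ?_
  rw [G2_sign ε hε, Finset.mul_sum]

/-- The graph is regular. -/
theorem graph_regular (ε : F → ℝ) (hε : ∀ a, ε a = 1 ∨ ε a = -1) (hε0 : ∑ a, ε a = 0) (d : ℕ)
    (hd : 2 * d = Fintype.card F ^ 2 * (Fintype.card F - 1) ^ 2) [(graph ε).LocallyFinite] :
    (graph ε).IsRegularOfDegree d := by
  classical
  intro l
  have hq : 1 ≤ Fintype.card F := Fintype.card_pos
  have e1 : ((graph ε).degree l : ℝ) = ∑ m : Hx F, (if (graph ε).Adj l m then (1 : ℝ) else 0) := by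
    have h1 : (graph ε).neighborFinset l = univ.filter (fun m => (graph ε).Adj l m) := by
      ext m
      simp
    rw [← SimpleGraph.card_neighborFinset_eq_degree, h1, Finset.sum_boole]
  have e2 : ((graph ε).degree l : ℝ) = ∑ a : F, ∑ a' : F, (if ε a ≠ ε a' then
      ((Fintype.card F : ℝ) - 1) ^ 2 else 0) := by
    rw [e1]
    have h1 := sum_adj ε (fun _ => (1 : ℝ)) l
    rw [h1]
    refine Finset.sum_congr rfl fun a _ => Finset.sum_congr rfl fun a' _ => ?_
    refine if_congr Iff.rfl ?_ rfl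
    simp only [Finset.sum_const, Finset.card_erase_of_mem (Finset.mem_univ _), nsmul_eq_mul,
      mul_one, Finset.card_univ]
    rw [Nat.cast_sub hq, Nat.cast_one]
    ring
  have e3 : 2 * ((graph ε).degree l : ℝ) =
      (Fintype.card F : ℝ) ^ 2 * ((Fintype.card F : ℝ) - 1) ^ 2 := by
    rw [e2, Finset.mul_sum]
    have h1 : ∀ a : F, 2 * ∑ a' : F, (if ε a ≠ ε a' then ((Fintype.card F : ℝ) - 1) ^ 2 else 0) =
        (Fintype.card F : ℝ) * ((Fintype.card F : ℝ) - 1) ^ 2 := by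
      intro a
      rw [Finset.mul_sum]
      have h2 : ∀ a' : F, 2 * (if ε a ≠ ε a' then ((Fintype.card F : ℝ) - 1) ^ 2 else 0) =
          ((Fintype.card F : ℝ) - 1) ^ 2 - (ε a * ((Fintype.card F : ℝ) - 1) ^ 2) * ε a' := by
        intro a'
        rw [G2_sign ε hε]
        ring
      rw [Finset.sum_congr rfl fun a' _ => h2 a', Finset.sum_sub_distrib, ← Finset.mul_sum, hε0]
      simp
    rw [Finset.sum_congr rfl fun a _ => h1 a]
    simp only [Finset.sum_const, Finset.card_univ, nsmul_eq_mul]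
    ring
  have e4 : (2 * d : ℝ) = (Fintype.card F : ℝ) ^ 2 * ((Fintype.card F : ℝ) - 1) ^ 2 := by
    have h1 : ((2 * d : ℕ) : ℝ) = ((Fintype.card F ^ 2 * (Fintype.card F - 1) ^ 2 : ℕ) : ℝ) := by
      rw [hd]
    push_cast [Nat.cast_sub hq] at h1
    exact h1
  have e5 : ((graph ε).degree l : ℝ) = (d : ℝ) := by linarith
  exact_mod_cast e5

end Pool.Agent.FCE.T4
end

section

set_option autoImplicit false

/-!
The graphs are `K_4`-free (MP_fce80c_co).
-/

namespace Pool.Agent.FCE.T4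

variable {F : Type} [Field F] [CharP F 2]

section

variable {ι : Type} (l : ι → Hx F) (a s : ι → ι → F)

/-- Data of a clique. -/
structure CData (ε : F → ℝ) : Prop where
  hs : ∀ i j, i ≠ j → s i j ≠ 0
  hε : ∀ i j, i ≠ j → ε (a i j) ≠ ε (a j i)
  hW : ∀ i j, i ≠ j → Wit (l i) (l j) (a i j) (s i j) (a j i) (s j i)

variable {l a s} {ε : F → ℝ}

theorem add_ne {x y : F} (h : ε x ≠ ε y) : x + y ≠ 0 := by
  intro h1
  apply h
  rw [CharTwo.add_eq_zero.1 h1]

theorem CData.hb (D : CData l a s ε) {i j : ι} (hij : i ≠ j) : a i j + a j i ≠ 0 :=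
  add_ne (D.hε i j hij)

theorem CData.tri (D : CData l a s ε) {i j k : ι} (hij : i ≠ j) (hjk : j ≠ k) (hik : i ≠ k) :
    s i k * s k i * (a i k + a k i) ^ 2 * (a i j + a i k) * (a k j + a k i)
      = s j i * s j k * (a j i + a j k) ^ 2 * (a i j + a j i) * (a k j + a j k) :=
  triangle (D.hW i j hij) (D.hW j k hjk) (D.hW i k hik)

/-- If the centre `j` is degenerate then so is `i` or `k`. -/
theorem CData.deg1 (D : CData l a s ε) {i j k : ι} (hij : i ≠ j) (hjk : j ≠ k) (hik : i ≠ k)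
    (h : a j i + a j k = 0) : a i j + a i k = 0 ∨ a k j + a k i = 0 := by
  have h1 := D.tri hij hjk hik
  rw [h] at h1
  have h2 : s i k * s k i * (a i k + a k i) ^ 2 * (a i j + a i k) * (a k j + a k i) = 0 := by
    rw [h1]; ring
  rcases mul_eq_zero.1 h2 with h3 | h3
  · rcases mul_eq_zero.1 h3 with h4 | h4
    · exfalso
      have := D.hs i k hik
      have := D.hs k i hik.symm
      have := D.hb hik
      simp_all
    · exact Or.inl h4
  · exact Or.inr h3

/-- If `i` is degenerate then so is the centre `j`. -/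
theorem CData.deg2 (D : CData l a s ε) {i j k : ι} (hij : i ≠ j) (hjk : j ≠ k) (hik : i ≠ k)
    (h : a i j + a i k = 0) : a j i + a j k = 0 := by
  have h1 := D.tri hij hjk hik
  rw [h] at h1
  have h2 : s j i * s j k * (a j i + a j k) ^ 2 * (a i j + a j i) * (a k j + a j k) = 0 := by
    rw [← h1]; ring
  have e1 := D.hs j i hij.symm
  have e2 := D.hs j k hjk
  have e3 := D.hb hij
  have e4 := D.hb hjk.symm
  rcases mul_eq_zero.1 h2 with h3 | h3
  · rcases mul_eq_zero.1 h3 with h4 | h4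
    · rcases mul_eq_zero.1 h4 with h5 | h5
      · exact absurd h5 (mul_ne_zero e1 e2)
      · exact pow_eq_zero_iff (two_ne_zero) |>.1 h5
    · exact absurd h4 e3
  · exact absurd h3 e4

theorem CData.nd (D : CData l a s ε) (hε2 : ∀ x, ε x = 1 ∨ ε x = -1) {i j k : ι} (hij : i ≠ j)
    (hjk : j ≠ k) (hik : i ≠ k) : a i j + a i k ≠ 0 := by
  intro h
  have h1 : a j i + a j k = 0 := D.deg2 hij hjk hik h
  have h2 : a k i + a k j = 0 := by
    apply D.deg2 hik hjk.symm hij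
    rw [add_comm]; exact h
  have g1 : a i j = a i k := CharTwo.add_eq_zero.1 h
  have g2 : a j i = a j k := CharTwo.add_eq_zero.1 h1
  have g3 : a k i = a k j := CharTwo.add_eq_zero.1 h2
  have f1 := D.hε i j hij
  have f2 := D.hε j k hjk
  have f3 := D.hε i k hik
  rw [g2] at f1
  rw [← g3] at f2
  rw [← g1] at f3
  rcases hε2 (a i j) with u | u <;> rcases hε2 (a j k) with v | v <;>
    rcases hε2 (a k i) with w | w <;> rw [u, v] at f1 <;> rw [v, w] at f2 <;>
    rw [u, w] at f3 <;> simp_all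

theorem CData.om' (D : CData l a s ε) {i j : ι} (hij : i ≠ j) (α β : F) :
    om (X (l i) α) (X (l j) β)
      = s i j * s j i * (a i j + a j i) ^ 2 * (α + a i j) * (β + a j i) :=
  (D.hW i j hij).om α β

end

theorem no_four {l : Fin 4 → Hx F} {a s : Fin 4 → Fin 4 → F} {ε : F → ℝ} (D : CData l a s ε)
    (hε2 : ∀ x, ε x = 1 ∨ ε x = -1) (hcube : ∀ x : F, x ^ 3 = 1 → x = 1) : False := by
  have hn : ∀ i j k : Fin 4, i ≠ j → j ≠ k → i ≠ k → a i j + a i k ≠ 0 :=
    fun i j k h1 h2 h3 => D.nd hε2 h1 h2 h3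
  have hT : ∀ i j : Fin 4, i ≠ j → s i j * (a i j + a j i) ≠ 0 :=
    fun i j h => mul_ne_zero (D.hs i j h) (D.hb h)
  have htri : ∀ i j k : Fin 4, i ≠ j → j ≠ k → i ≠ k →
      (s i k * (a i k + a k i)) * (s k i * (a k i + a i k)) * (a i j + a i k) * (a k i + a k j)
        = (s j i * (a j i + a i j)) * (s j k * (a j k + a k j)) * (a j i + a j k) ^ 2 := by
    intro i j k h1 h2 h3
    have := D.tri h1 h2 h3
    linear_combination this
  have h12 : (0 : Fin 4) ≠ 1 := by decide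
  have h13 : (0 : Fin 4) ≠ 2 := by decide
  have h14 : (0 : Fin 4) ≠ 3 := by decide
  have h23 : (1 : Fin 4) ≠ 2 := by decide
  have h24 : (1 : Fin 4) ≠ 3 := by decide
  have h34 : (2 : Fin 4) ≠ 3 := by decide
  refine final_algebra hcube
    (T12 := s 0 1 * (a 0 1 + a 1 0)) (T21 := s 1 0 * (a 1 0 + a 0 1))
    (T13 := s 0 2 * (a 0 2 + a 2 0)) (T31 := s 2 0 * (a 2 0 + a 0 2))
    (T14 := s 0 3 * (a 0 3 + a 3 0)) (T41 := s 3 0 * (a 3 0 + a 0 3))
    (T23 := s 1 2 * (a 1 2 + a 2 1)) (T32 := s 2 1 * (a 2 1 + a 1 2))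
    (T24 := s 1 3 * (a 1 3 + a 3 1)) (T42 := s 3 1 * (a 3 1 + a 1 3))
    (T34 := s 2 3 * (a 2 3 + a 3 2)) (T43 := s 3 2 * (a 3 2 + a 2 3))
    (n123 := a 0 1 + a 0 2) (n124 := a 0 1 + a 0 3) (n134 := a 0 2 + a 0 3)
    (n213 := a 1 0 + a 1 2) (n214 := a 1 0 + a 1 3) (n234 := a 1 2 + a 1 3)
    (n312 := a 2 0 + a 2 1) (n314 := a 2 0 + a 2 3) (n324 := a 2 1 + a 2 3)
    (n412 := a 3 0 + a 3 1) (n413 := a 3 0 + a 3 2) (n423 := a 3 1 + a 3 2)
    (hT _ _ h12) (hT _ _ h12.symm) (hT _ _ h13) (hT _ _ h13.symm) (hT _ _ h14) (hT _ _ h14.symm)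
    (hT _ _ h23) (hT _ _ h23.symm) (hT _ _ h24) (hT _ _ h24.symm) (hT _ _ h34) (hT _ _ h34.symm)
    (hn _ _ _ h12 h23 h13) (hn _ _ _ h12 h24 h14) (hn _ _ _ h13 h34 h14)
    (hn _ _ _ h12.symm h13 h23) (hn _ _ _ h12.symm h14 h24) (hn _ _ _ h23 h34 h24)
    (hn _ _ _ h13.symm h12 h23.symm) (hn _ _ _ h13.symm h14 h34)
    (hn _ _ _ h23.symm h24 h34)
    (hn _ _ _ h14.symm h12 h24.symm) (hn _ _ _ h14.symm h13 h34.symm)
    (hn _ _ _ h24.symm h23 h34.symm)
    ?_ ?_ ?_ ?_ ?_ ?_ ?_ ?_ ?_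
  · have := htri 1 0 2 h12.symm h13 h23
    linear_combination this
  · have := htri 1 0 3 h12.symm h14 h24
    linear_combination this
  · have := htri 2 0 3 h13.symm h14 h34
    linear_combination this
  · have := htri 0 1 2 h12 h23 h13
    linear_combination this
  · have := htri 0 1 3 h12 h24 h14
    linear_combination this
  · have := htri 2 1 3 h23.symm h24 h34
    linear_combination this
  · have := htri 0 2 3 h13 h34 h14
    linear_combination this
  · have := htri 1 2 3 h23 h34 h24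
    linear_combination this
  · -- the expansion in a hyperbolic basis
    have hz : ∀ x : F, x + x = 0 := fun x => CharTwo.add_self_eq_zero x
    have hA : ∀ i j : Fin 4, i ≠ j → s i j * s j i * (a i j + a j i) ^ 2 ≠ 0 := fun i j h =>
      mul_ne_zero (mul_ne_zero (D.hs i j h) (D.hs j i h.symm)) (pow_ne_zero 2 (D.hb h))
    have hh1 : s 0 1 * s 1 0 * (a 0 1 + a 1 0) ^ 2 * (a 0 2 + a 0 1) * (a 1 2 + a 1 0) ≠ 0 :=
      mul_ne_zero (mul_ne_zero (hA 0 1 h12) (hn _ _ _ h13 h23.symm h12)) (hn _ _ _ h23 h13.symm h12.symm)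
    have hh2 : s 0 2 * s 2 0 * (a 0 2 + a 2 0) ^ 2 * (a 0 1 + a 0 2) * (a 2 1 + a 2 0) ≠ 0 :=
      mul_ne_zero (mul_ne_zero (hA 0 2 h13) (hn _ _ _ h12 h23 h13)) (hn _ _ _ h23.symm h12.symm h13.symm)
    have hh3 : s 1 2 * s 2 1 * (a 1 2 + a 2 1) ^ 2 * (a 1 0 + a 1 2) * (a 2 0 + a 2 1) ≠ 0 :=
      mul_ne_zero (mul_ne_zero (hA 1 2 h23) (hn _ _ _ h12.symm h13 h23)) (hn _ _ _ h13.symm h12 h23.symm)
    have key := om_expand (u1 := X (l 0) (a 0 2)) (v1 := X (l 1) (a 1 2)) (u2 := X (l 0) (a 0 1))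
      (v2 := X (l 2) (a 2 1)) (u3 := X (l 1) (a 1 0)) (v3 := X (l 2) (a 2 0)) hh1 hh2 hh3
      (D.om' h12 _ _) (D.om' h13 _ _) (D.om' h23 _ _)
      (om_same _ _ _) (by rw [D.om' h13, hz]; ring) (by rw [D.om' h12, hz]; ring)
      (by rw [D.om' h13, hz]; ring) (by rw [D.om' h12.symm, hz]; ring)
      (by rw [D.om' h23, hz]; ring) (om_same _ _ _) (by rw [D.om' h23, hz]; ring)
      (by rw [D.om' h12, hz]; ring) (by rw [D.om' h13, hz]; ring)
      (by rw [D.om' h23.symm, hz]; ring) (om_same _ _ _)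
      (X (l 3) 0) (X (l 3) 1)
    rw [om_same, D.om' h14.symm, D.om' h24.symm, D.om' h34.symm, D.om' h14.symm, D.om' h24.symm,
      D.om' h34.symm, D.om' h14, D.om' h24, D.om' h14, D.om' h34, D.om' h24, D.om' h34] at key
    have h2 : (2 : F) = 0 := CharTwo.two_eq_zero
    have hN1 : s 3 1 * s 1 3 * (a 3 1 + a 1 3) ^ 2 * (0 + a 3 1) * (a 1 2 + a 1 3) *
          (s 0 3 * s 3 0 * (a 0 3 + a 3 0) ^ 2 * (a 0 2 + a 0 3) * (1 + a 3 0)) +
        s 3 0 * s 0 3 * (a 3 0 + a 0 3) ^ 2 * (0 + a 3 0) * (a 0 2 + a 0 3) *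
          (s 1 3 * s 3 1 * (a 1 3 + a 3 1) ^ 2 * (a 1 2 + a 1 3) * (1 + a 3 1))
        = (s 0 3 * (a 0 3 + a 3 0)) * (s 3 0 * (a 3 0 + a 0 3)) *
          ((s 1 3 * (a 1 3 + a 3 1)) * (s 3 1 * (a 3 1 + a 1 3))) *
          ((a 0 2 + a 0 3) * (a 1 2 + a 1 3) * (a 3 0 + a 3 1)) := by
      linear_combination ((s 0 3 * (a 0 3 + a 3 0)) * (s 3 0 * (a 3 0 + a 0 3)) *
          ((s 1 3 * (a 1 3 + a 3 1)) * (s 3 1 * (a 3 1 + a 1 3))) *
          ((a 0 2 + a 0 3) * (a 1 2 + a 1 3) * (a 3 0 * a 3 1))) * h2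
    have hN2 : s 3 2 * s 2 3 * (a 3 2 + a 2 3) ^ 2 * (0 + a 3 2) * (a 2 1 + a 2 3) *
          (s 0 3 * s 3 0 * (a 0 3 + a 3 0) ^ 2 * (a 0 1 + a 0 3) * (1 + a 3 0)) +
        s 3 0 * s 0 3 * (a 3 0 + a 0 3) ^ 2 * (0 + a 3 0) * (a 0 1 + a 0 3) *
          (s 2 3 * s 3 2 * (a 2 3 + a 3 2) ^ 2 * (a 2 1 + a 2 3) * (1 + a 3 2))
        = (s 0 3 * (a 0 3 + a 3 0)) * (s 3 0 * (a 3 0 + a 0 3)) *
          ((s 2 3 * (a 2 3 + a 3 2)) * (s 3 2 * (a 3 2 + a 2 3))) *
          ((a 0 1 + a 0 3) * (a 2 1 + a 2 3) * (a 3 0 + a 3 2)) := by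
      linear_combination ((s 0 3 * (a 0 3 + a 3 0)) * (s 3 0 * (a 3 0 + a 0 3)) *
          ((s 2 3 * (a 2 3 + a 3 2)) * (s 3 2 * (a 3 2 + a 2 3))) *
          ((a 0 1 + a 0 3) * (a 2 1 + a 2 3) * (a 3 0 * a 3 2))) * h2
    have hN3 : s 3 2 * s 2 3 * (a 3 2 + a 2 3) ^ 2 * (0 + a 3 2) * (a 2 0 + a 2 3) *
          (s 1 3 * s 3 1 * (a 1 3 + a 3 1) ^ 2 * (a 1 0 + a 1 3) * (1 + a 3 1)) +
        s 3 1 * s 1 3 * (a 3 1 + a 1 3) ^ 2 * (0 + a 3 1) * (a 1 0 + a 1 3) *
          (s 2 3 * s 3 2 * (a 2 3 + a 3 2) ^ 2 * (a 2 0 + a 2 3) * (1 + a 3 2))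
        = (s 1 3 * (a 1 3 + a 3 1)) * (s 3 1 * (a 3 1 + a 1 3)) *
          ((s 2 3 * (a 2 3 + a 3 2)) * (s 3 2 * (a 3 2 + a 2 3))) *
          ((a 1 0 + a 1 3) * (a 2 0 + a 2 3) * (a 3 1 + a 3 2)) := by
      linear_combination ((s 1 3 * (a 1 3 + a 3 1)) * (s 3 1 * (a 3 1 + a 1 3)) *
          ((s 2 3 * (a 2 3 + a 3 2)) * (s 3 2 * (a 3 2 + a 2 3))) *
          ((a 1 0 + a 1 3) * (a 2 0 + a 2 3) * (a 3 1 * a 3 2))) * h2
    rw [hN1, hN2, hN3] at key
    rw [key]
    congr 1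
    · congr 1
      · congr 1; ring
      · congr 1; ring
    · congr 1; ring

theorem exists_data {ε : F → ℝ} (l : Fin 4 → Hx F) (h : ∀ i j, i ≠ j → (graph ε).Adj (l i) (l j)) :
    ∃ a s : Fin 4 → Fin 4 → F, CData l a s ε := by
  have h' : ∀ i j : Fin 4, ∃ a s a' s' : F, i ≠ j →
      (s ≠ 0 ∧ s' ≠ 0 ∧ ε a ≠ ε a' ∧ l j = l i * g a s * g a' s') := by
    intro i j
    by_cases hij : i = j
    · exact ⟨0, 0, 0, 0, fun h => absurd hij h⟩
    · obtain ⟨a, s, a', s', h1, h2, h3, h4⟩ := h i j hij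
      exact ⟨a, s, a', s', fun _ => ⟨h1, h2, h3, h4⟩⟩
  choose a s a' s' hall using h'
  refine ⟨fun i j => if i < j then a i j else a' j i, fun i j => if i < j then s i j else s' j i,
    ?_, ?_, ?_⟩
  · intro i j hij
    rcases lt_or_gt_of_ne hij with hlt | hlt
    · simp only [hlt, if_true]
      exact (hall i j hij).1
    · simp only [not_lt_of_gt hlt, if_false]
      exact (hall j i hij.symm).2.1
  · intro i j hij
    rcases lt_or_gt_of_ne hij with hlt | hlt
    · simp only [hlt, if_true, not_lt_of_gt hlt, if_false]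
      exact (hall i j hij).2.2.1
    · simp only [hlt, if_true, not_lt_of_gt hlt, if_false]
      exact (hall j i hij.symm).2.2.1.symm
  · intro i j hij
    rcases lt_or_gt_of_ne hij with hlt | hlt
    · simp only [hlt, if_true, not_lt_of_gt hlt, if_false]
      exact (hall i j hij).2.2.2
    · simp only [hlt, if_true, not_lt_of_gt hlt, if_false]
      exact Wit.symm (hall j i hij.symm).2.2.2

theorem graph_cliqueFree (ε : F → ℝ) (hε2 : ∀ x, ε x = 1 ∨ ε x = -1)
    (hcube : ∀ x : F, x ^ 3 = 1 → x = 1) : (graph ε).CliqueFree 4 := by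
  by_contra hcon
  rw [SimpleGraph.not_cliqueFree_iff_top_isContained] at hcon
  obtain ⟨f⟩ := hcon
  obtain ⟨a, s, D⟩ := exists_data (ε := ε) (fun i => f i) (fun i j hij =>
    f.toHom.map_adj (by simpa using hij))
  exact no_four D hε2 hcube

end Pool.Agent.FCE.T4
end
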