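import Mathlib
import Pool.Agent.OPG.Mg_MP_fce80c_co.G007
import Pool.Agent.FCE.T4.Group
import Pool.Agent.FCE.Mg_MP_fce80c_co.G001

section

set_option autoImplicit false

/-!
The fields with `2 ^ m` elements, `m` odd, and their real characters (MP_fce80c_co).
-/

namespace Pool.Agent.FCE.T4

open Finset

/-- A field with `2 ^ m` elements, `m` odd, has no nontrivial cube roots of unity. -/
theorem cube_root {F : Type} [Field F] [Fintype F] (m : ℕ) (hm : Odd m)
    (hF : Fintype.card F = 2 ^ m) (x : F) (hx : x ^ 3 = 1) : x = 1 := by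
  have hx0 : x ≠ 0 := by
    rintro rfl
    norm_num at hx
  have h1 : x ^ (Fintype.card F - 1) = 1 := FiniteField.pow_card_sub_one_eq_one x hx0
  obtain ⟨j, rfl⟩ := hm
  -- `2 ^ (2 j + 1) - 1 = 3 r + 1`
  have h2 : ∀ j : ℕ, ∃ r, 2 ^ (2 * j + 1) = 3 * r + 2 := by
    intro j
    induction j with
    | zero => exact ⟨0, by norm_num⟩
    | succ j ih =>
      obtain ⟨r, hr⟩ := ih
      refine ⟨4 * r + 2, ?_⟩
      have : 2 ^ (2 * (j + 1) + 1) = 4 * 2 ^ (2 * j + 1) := by ring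
      rw [this, hr]
      ring
  obtain ⟨r, hr⟩ := h2 j
  rw [hF, hr] at h1
  have h3 : 3 * r + 2 - 1 = 3 * r + 1 := by omega
  rw [h3, pow_add, pow_mul, hx, one_pow, one_mul, pow_one] at h1
  exact h1

/-- The real character of a finite field of characteristic two. -/
theorem exists_char (F : Type) [Field F] [Fintype F] [CharP F 2] :
    ∃ ψ : F → ℝ, (∀ x y, ψ (x + y) = ψ x * ψ y) ∧ (∀ x, ψ x * ψ x = 1) ∧
      (∀ x, ψ x = 1 ∨ ψ x = -1) ∧ ∀ c : F, c ≠ 0 → ∑ x, ψ (c * x) = 0 := by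
  let _ : Algebra (ZMod 2) F := ZMod.algebra F 2
  obtain ⟨l, hl⟩ := OPG.exists_ell F 1 one_ne_zero
  refine ⟨fun x => OPG.sg (l x), ?_, ?_, ?_, ?_⟩
  · intro x y
    beta_reduce
    rw [map_add, OPG.sg_add]
  · intro x
    exact OPG.sg_sq _
  · intro x
    beta_reduce
    unfold OPG.sg
    split_ifs
    · left; rfl
    · right; rfl
  · intro c hc
    have := OPG.sum_sg (l.comp (AddMonoidHom.mulLeft c)) (c⁻¹) (by
      change l (c * c⁻¹) ≠ 0
      rw [mul_inv_cancel₀ hc]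
      exact hl)
    exact this

end Pool.Agent.FCE.T4
end

section

set_option autoImplicit false

/-!
The kernel bound for the collinearity relation (MP_fce80c_co).
-/

namespace Pool.Agent.FCE.T4

open Finset

variable {F : Type} [Field F] [Fintype F] [DecidableEq F]

/-- The displacement. -/
def disp (i j : F × F) : F × F × F :=
  ((i.1 + j.1) * (i.2 + j.2), (i.1 + j.1) * (j.1 * i.2 + i.1 * j.2),
    (i.1 + j.1) * (i.2 ^ 2 + i.2 * j.2 + j.2 ^ 2))

theorem K1_psi_zero (ψ : F → ℝ) (hadd : ∀ x y, ψ (x + y) = ψ x * ψ y)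
    (hsq : ∀ x, ψ x * ψ x = 1) : ψ 0 = 1 := by
  have h := hadd 0 0
  rw [add_zero, hsq] at h
  exact h

/-- the character of `F ^ 3` with the frequency `ξ` -/
def K1_ch (ψ : F → ℝ) (ξ w : F × F × F) : ℝ := ψ (ξ.1 * w.1 + ξ.2.1 * w.2.1 + ξ.2.2 * w.2.2)

theorem K1_ch_add (ψ : F → ℝ) (hadd : ∀ x y, ψ (x + y) = ψ x * ψ y) (ξ w w' : F × F × F) :
    K1_ch ψ ξ (w + w') = K1_ch ψ ξ w * K1_ch ψ ξ w' := by
  unfold K1_ch
  rw [← hadd]
  congr 1
  simp only [Prod.fst_add, Prod.snd_add]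
  ring

theorem K1_sum1 (ψ : F → ℝ) (hadd : ∀ x y, ψ (x + y) = ψ x * ψ y) (hsq : ∀ x, ψ x * ψ x = 1)
    (hsum : ∀ c : F, c ≠ 0 → ∑ x, ψ (c * x) = 0) (r : F) :
    ∑ x, ψ (x * r) = if r = 0 then (Fintype.card F : ℝ) else 0 := by
  split_ifs with h
  · subst h
    simp only [mul_zero, K1_psi_zero ψ hadd hsq, Finset.sum_const, Finset.card_univ, nsmul_eq_mul,
      mul_one]
  · rw [← hsum r h]
    exact Finset.sum_congr rfl fun x _ => by rw [mul_comm]

theorem K1_sum3 (ψ : F → ℝ) (hadd : ∀ x y, ψ (x + y) = ψ x * ψ y) (hsq : ∀ x, ψ x * ψ x = 1)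
    (hsum : ∀ c : F, c ≠ 0 → ∑ x, ψ (c * x) = 0) (r : F × F × F) :
    ∑ ξ : F × F × F, K1_ch ψ ξ r = if r = 0 then (Fintype.card F : ℝ) ^ 3 else 0 := by
  have h1 : ∑ ξ : F × F × F, K1_ch ψ ξ r =
      (∑ x, ψ (x * r.1)) * ((∑ x, ψ (x * r.2.1)) * ∑ x, ψ (x * r.2.2)) := by
    rw [Fintype.sum_prod_type]
    simp only [Fintype.sum_prod_type]
    rw [Finset.sum_mul]
    refine Finset.sum_congr rfl fun a _ => ?_
    rw [Finset.sum_mul, Finset.mul_sum]
    refine Finset.sum_congr rfl fun b _ => ?_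
    rw [Finset.mul_sum, Finset.mul_sum]
    refine Finset.sum_congr rfl fun c _ => ?_
    unfold K1_ch
    rw [hadd, hadd]
    ring
  rw [h1, K1_sum1 ψ hadd hsq hsum, K1_sum1 ψ hadd hsq hsum, K1_sum1 ψ hadd hsq hsum]
  by_cases hr : r = 0
  · subst hr
    simp only [Prod.fst_zero, Prod.snd_zero, if_true]
    ring
  · rw [if_neg hr]
    by_cases ha : r.1 = 0
    · by_cases hb : r.2.1 = 0
      · by_cases hc : r.2.2 = 0
        · exact absurd (Prod.ext ha (Prod.ext hb hc)) hr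
        · rw [if_neg hc]; ring
      · rw [if_neg hb]; ring
    · rw [if_neg ha]; ring

theorem K1_two [CharP F 2] (w w' t : F × F × F) : w + w' + t = 0 ↔ w' = w + t := by
  have key : ∀ x y z : F, x + y + z = 0 ↔ y = x + z := by
    intro x y z
    constructor
    · intro h
      have h1 : y = -(x + z) := by linear_combination h
      rw [h1, CharTwo.neg_eq]
    · intro h
      rw [h]
      have h2 := CharTwo.add_self_eq_zero (x + z)
      linear_combination h2
  constructor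
  · intro h
    refine Prod.ext ?_ (Prod.ext ?_ ?_)
    · exact (key _ _ _).mp (congrArg (fun p : F × F × F => p.1) h)
    · exact (key _ _ _).mp (congrArg (fun p : F × F × F => p.2.1) h)
    · exact (key _ _ _).mp (congrArg (fun p : F × F × F => p.2.2) h)
  · intro h
    refine Prod.ext ?_ (Prod.ext ?_ ?_)
    · exact (key _ _ _).mpr (congrArg (fun p : F × F × F => p.1) h)
    · exact (key _ _ _).mpr (congrArg (fun p : F × F × F => p.2.1) h)
    · exact (key _ _ _).mpr (congrArg (fun p : F × F × F => p.2.2) h)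

theorem K1_corr (ψ : F → ℝ) (hadd : ∀ x y, ψ (x + y) = ψ x * ψ y) (hsq : ∀ x, ψ x * ψ x = 1)
    (hsum : ∀ c : F, c ≠ 0 → ∑ x, ψ (c * x) = 0) [CharP F 2]
    (u v : F × F × F → ℝ) (t : F × F × F) :
    (Fintype.card F : ℝ) ^ 3 * ∑ w, u w * v (w + t)
      = ∑ ξ : F × F × F, (∑ w : F × F × F, u w * K1_ch ψ ξ w) *
          (∑ w : F × F × F, v w * K1_ch ψ ξ w) * K1_ch ψ ξ t := by
  have h1 : ∀ ξ : F × F × F, (∑ w : F × F × F, u w * K1_ch ψ ξ w) *
      (∑ w : F × F × F, v w * K1_ch ψ ξ w) * K1_ch ψ ξ t =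
      ∑ w, ∑ w', u w * v w' * K1_ch ψ ξ (w + w' + t) := by
    intro ξ
    rw [Finset.sum_mul, Finset.sum_mul]
    refine Finset.sum_congr rfl fun w _ => ?_
    rw [Finset.mul_sum, Finset.sum_mul]
    refine Finset.sum_congr rfl fun w' _ => ?_
    rw [K1_ch_add ψ hadd, K1_ch_add ψ hadd]
    ring
  simp only [h1]
  rw [Finset.sum_comm, Finset.mul_sum]
  refine Finset.sum_congr rfl fun w _ => ?_
  rw [Finset.sum_comm]
  have h2 : ∀ w' : F × F × F, ∑ ξ : F × F × F, u w * v w' * K1_ch ψ ξ (w + w' + t) =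
      if w' = w + t then u w * v w' * (Fintype.card F : ℝ) ^ 3 else 0 := by
    intro w'
    rw [← Finset.mul_sum, K1_sum3 ψ hadd hsq hsum]
    by_cases h : w' = w + t
    · rw [if_pos h, if_pos ((K1_two w w' t).mpr h)]
    · rw [if_neg h, if_neg (fun h' => h ((K1_two w w' t).mp h')), mul_zero]
  simp only [h2]
  rw [Finset.sum_ite_eq' Finset.univ (w + t), if_pos (Finset.mem_univ _)]
  ring

/-- Fourier inversion for a correlation on `F ^ 3`. -/
theorem corr_eq (ψ : F → ℝ) (hadd : ∀ x y, ψ (x + y) = ψ x * ψ y) (hsq : ∀ x, ψ x * ψ x = 1)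
    (hsum : ∀ c : F, c ≠ 0 → ∑ x, ψ (c * x) = 0) [CharP F 2]
    (u v : F × F × F → ℝ) (t : F × F × F) :
    (Fintype.card F : ℝ) ^ 3 * ∑ w, u w * v (w + t)
      = ∑ ξ : F × F × F,
          (∑ w : F × F × F, u w * ψ (ξ.1 * w.1 + ξ.2.1 * w.2.1 + ξ.2.2 * w.2.2)) *
          (∑ w : F × F × F, v w * ψ (ξ.1 * w.1 + ξ.2.1 * w.2.1 + ξ.2.2 * w.2.2)) *
          ψ (ξ.1 * t.1 + ξ.2.1 * t.2.1 + ξ.2.2 * t.2.2) := by
  exact K1_corr ψ hadd hsq hsum u v t

omit [Fintype F] [DecidableEq F] in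
/-- The character at zero. -/
theorem K2_psi_zero (ψ : F → ℝ) (hadd : ∀ x y, ψ (x + y) = ψ x * ψ y)
    (hsq : ∀ x, ψ x * ψ x = 1) : ψ 0 = 1 := by
  have h := hadd 0 0
  rw [add_zero, hsq] at h
  exact h

/-- Orthogonality in one dimension. -/
theorem K2_orth (ψ : F → ℝ) (hadd : ∀ x y, ψ (x + y) = ψ x * ψ y) (hsq : ∀ x, ψ x * ψ x = 1)
    (hsum : ∀ c : F, c ≠ 0 → ∑ x, ψ (c * x) = 0) [CharP F 2] (t t' : F) :
    ∑ c : F, ψ (c * t) * ψ (c * t') = if t = t' then (Fintype.card F : ℝ) else 0 := by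
  split_ifs with h
  · subst h
    simp [hsq]
  · have hne : t + t' ≠ 0 := by
      intro h0
      apply h
      have : t = -t' := eq_neg_of_add_eq_zero_left h0
      rw [this, CharTwo.neg_eq]
    rw [← hsum (t + t') hne]
    apply Finset.sum_congr rfl
    intro c _
    rw [← hadd]
    congr 1
    ring

/-- Parseval in one dimension. -/
theorem K2_parseval (ψ : F → ℝ) (hadd : ∀ x y, ψ (x + y) = ψ x * ψ y)
    (hsq : ∀ x, ψ x * ψ x = 1)
    (hsum : ∀ c : F, c ≠ 0 → ∑ x, ψ (c * x) = 0) [CharP F 2] (w : F → ℝ) :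
    ∑ c : F, (∑ t, w t * ψ (c * t)) ^ 2 = (Fintype.card F : ℝ) * ∑ t, w t ^ 2 := by
  have h1 : ∀ c : F, (∑ t, w t * ψ (c * t)) ^ 2
      = ∑ t, ∑ t', w t * w t' * (ψ (c * t) * ψ (c * t')) := by
    intro c
    rw [sq, Finset.sum_mul_sum]
    apply Finset.sum_congr rfl
    intro t _
    apply Finset.sum_congr rfl
    intro t' _
    ring
  simp_rw [h1]
  rw [Finset.sum_comm, Finset.mul_sum]
  apply Finset.sum_congr rfl
  intro t _
  rw [Finset.sum_comm]
  simp_rw [← Finset.mul_sum, K2_orth ψ hadd hsq hsum]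
  simp only [mul_ite, mul_zero, Finset.sum_ite_eq, Finset.mem_univ, if_true]
  ring

/-- The general bilinear estimate. -/
theorem bil_est (ψ : F → ℝ) (hadd : ∀ x y, ψ (x + y) = ψ x * ψ y) (hsq : ∀ x, ψ x * ψ x = 1)
    (hsum : ∀ c : F, c ≠ 0 → ∑ x, ψ (c * x) = 0) [CharP F 2]
    (f : F → F → F) (hf : ∀ i c, ((univ : Finset F).filter (fun j => f i j = c)).card ≤ 2)
    (W : F → F → ℝ) :
    ∑ i, ∑ j, (∑ t, W i t * ψ (f i j * t)) * (∑ t, W j t * ψ (f j i * t))
      ≤ 2 * (Fintype.card F : ℝ) * ∑ i, ∑ t, W i t ^ 2 := by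
  have hV : ∀ i : F, ∑ j, (∑ t, W i t * ψ (f i j * t)) ^ 2
      ≤ 2 * ((Fintype.card F : ℝ) * ∑ t, W i t ^ 2) := by
    intro i
    rw [← K2_parseval ψ hadd hsq hsum (W i), Finset.mul_sum,
      ← Finset.sum_fiberwise (univ : Finset F) (fun j => f i j)
        (fun j => (∑ t, W i t * ψ (f i j * t)) ^ 2)]
    apply Finset.sum_le_sum
    intro c _
    have h2 : ∑ j ∈ (univ : Finset F).filter (fun j => f i j = c),
        (∑ t, W i t * ψ (f i j * t)) ^ 2
        = (((univ : Finset F).filter (fun j => f i j = c)).card : ℝ) *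
          (∑ t, W i t * ψ (c * t)) ^ 2 := by
      rw [← nsmul_eq_mul, ← Finset.sum_const]
      apply Finset.sum_congr rfl
      intro j hj
      rw [(Finset.mem_filter.mp hj).2]
    rw [h2]
    apply mul_le_mul_of_nonneg_right _ (sq_nonneg _)
    exact_mod_cast hf i c
  have hcomm : ∑ i, ∑ j, (∑ t, W j t * ψ (f j i * t)) ^ 2
      = ∑ i, ∑ j, (∑ t, W i t * ψ (f i j * t)) ^ 2 := Finset.sum_comm
  have hAB : ∑ i, ∑ j, (∑ t, W i t * ψ (f i j * t)) * (∑ t, W j t * ψ (f j i * t))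
      ≤ ∑ i, ∑ j, ((∑ t, W i t * ψ (f i j * t)) ^ 2 / 2
          + (∑ t, W j t * ψ (f j i * t)) ^ 2 / 2) := by
    apply Finset.sum_le_sum
    intro i _
    apply Finset.sum_le_sum
    intro j _
    nlinarith [sq_nonneg ((∑ t, W i t * ψ (f i j * t)) - (∑ t, W j t * ψ (f j i * t)))]
  have hsplit : ∑ i, ∑ j, ((∑ t, W i t * ψ (f i j * t)) ^ 2 / 2
          + (∑ t, W j t * ψ (f j i * t)) ^ 2 / 2)
      = ∑ i, ∑ j, (∑ t, W i t * ψ (f i j * t)) ^ 2 := by
    simp_rw [Finset.sum_add_distrib, ← Finset.sum_div]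
    rw [hcomm]
    ring
  calc _ ≤ _ := hAB
    _ = _ := hsplit
    _ ≤ ∑ i, 2 * ((Fintype.card F : ℝ) * ∑ t, W i t ^ 2) :=
        Finset.sum_le_sum (fun i _ => hV i)
    _ = _ := by
        rw [← Finset.mul_sum, ← Finset.mul_sum]
        ring


/-- a quadratic equation has at most two solutions -/
theorem K3_quad (α β δ : F) (h : α ≠ 0 ∨ β ≠ 0) :
    ((univ : Finset F).filter (fun y => α * y ^ 2 + β * y = δ)).card ≤ 2 := by
  by_contra hc
  rw [not_le, Finset.two_lt_card] at hc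
  obtain ⟨y1, h1, y2, h2, y3, h3, h12, h13, h23⟩ := hc
  simp only [mem_filter, mem_univ, true_and] at h1 h2 h3
  have e1 : α * (y1 + y2) + β = 0 := by
    have h4 : (y1 - y2) * (α * (y1 + y2) + β) = 0 := by linear_combination h1 - h2
    exact (mul_eq_zero.1 h4).resolve_left (sub_ne_zero.2 h12)
  have e2 : α * (y1 + y3) + β = 0 := by
    have h4 : (y1 - y3) * (α * (y1 + y3) + β) = 0 := by linear_combination h1 - h3
    exact (mul_eq_zero.1 h4).resolve_left (sub_ne_zero.2 h13)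
  have e3 : α = 0 := by
    have h4 : α * (y2 - y3) = 0 := by linear_combination e1 - e2
    exact (mul_eq_zero.1 h4).resolve_right (sub_ne_zero.2 h23)
  have e4 : β = 0 := by
    rw [e3] at e1
    linear_combination e1
  exact h.elim (fun h => h e3) (fun h => h e4)

omit [Field F] [DecidableEq F] in
/-- rearrangement of a fourfold sum -/
theorem K3_sum (G : F → F → F → F → ℝ) (A : F → F → F → ℝ)
    (h : ∀ p q p' q', G p q p' q' = A p p' q * A p' p q') :
    ∑ p, ∑ q, ∑ p', ∑ q', G p q p' q' = ∑ p, ∑ p', (∑ q, A p p' q) * (∑ q', A p' p q') := by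
  refine sum_congr rfl fun p _ => ?_
  rw [sum_comm]
  refine sum_congr rfl fun p' _ => ?_
  rw [sum_mul_sum]
  exact sum_congr rfl fun q _ => sum_congr rfl fun q' _ => h p q p' q'

/-- The bound for one nonzero frequency. -/
theorem freq_bound (ψ : F → ℝ) (hadd : ∀ x y, ψ (x + y) = ψ x * ψ y) (hsq : ∀ x, ψ x * ψ x = 1)
    (hsum : ∀ c : F, c ≠ 0 → ∑ x, ψ (c * x) = 0) [CharP F 2]
    (ξ : F × F × F) (hξ : ξ ≠ 0) (u : F × F → ℝ) :
    ∑ i, ∑ j, u i * u j * ψ (ξ.1 * (disp i j).1 + ξ.2.1 * (disp i j).2.1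
        + ξ.2.2 * (disp i j).2.2)
      ≤ 2 * (Fintype.card F : ℝ) * ∑ i, u i ^ 2 := by
  obtain ⟨γ, η, ζ⟩ := ξ
  have h2 : (2 : F) = 0 := CharTwo.two_eq_zero
  by_cases hζ : ζ = 0
  · subst hζ
    have hne : η ≠ 0 ∨ γ ≠ 0 := by
      by_contra hcon
      push Not at hcon
      exact hξ (by rw [hcon.1, hcon.2]; rfl)
    have hb := bil_est ψ hadd hsq hsum (fun a a' => (a + a') * (γ + η * a')) (by
      intro a c
      have hq := K3_quad η (γ + η * a) (c - a * γ) (by
        rcases hne with h | h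
        · exact Or.inl h
        · by_cases h' : η = 0
          · right
            rw [h']
            simpa using h
          · exact Or.inl h')
      refine le_trans (card_le_card ?_) hq
      intro y hy
      simp only [mem_filter, mem_univ, true_and] at hy ⊢
      linear_combination hy) (fun a x => u (a, x))
    rw [Fintype.sum_prod_type (f := fun i : F × F => u i ^ 2)]
    refine le_trans (le_of_eq ?_) hb
    rw [← K3_sum (fun a x a' x' => u (a, x) * u (a', x') *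
      ψ (γ * (disp (a, x) (a', x')).1 + η * (disp (a, x) (a', x')).2.1
        + 0 * (disp (a, x) (a', x')).2.2))
      (fun a a' x => u (a, x) * ψ ((a + a') * (γ + η * a') * x))]
    · rw [Fintype.sum_prod_type]
      refine sum_congr rfl fun a _ => sum_congr rfl fun x _ => ?_
      rw [Fintype.sum_prod_type]
    · intro a x a' x'
      have e : γ * (disp (a, x) (a', x')).1 + η * (disp (a, x) (a', x')).2.1
          + 0 * (disp (a, x) (a', x')).2.2 =
          (a + a') * (γ + η * a') * x + (a' + a) * (γ + η * a) * x' := by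
        simp only [disp]
        ring
      rw [e, hadd]
      ring
  · set τ : F := η / ζ with hτ
    set σ : F := γ / ζ with hσ
    have hη : η = ζ * τ := by rw [hτ]; field_simp
    have hγ : γ = ζ * σ := by rw [hσ]; field_simp
    set r : F → F := fun a => τ ^ 2 * a ^ 3 + τ * σ * a ^ 2 + σ ^ 2 * a with hr
    set T : F × F → F × F := fun p => (p.1, p.2 + τ * p.1 + σ) with hT
    have hinv : Function.Involutive T := by
      rintro ⟨a, x⟩
      simp only [hT, Prod.mk.injEq, true_and]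
      linear_combination (τ * a + σ) * h2
    have hcomp : ∀ g : F × F → ℝ, ∑ i, g (T i) = ∑ i, g i := fun g =>
      Equiv.sum_comp (Function.Involutive.toPerm T hinv) g
    have hb := bil_est ψ hadd hsq hsum (fun X X' => ζ * (X ^ 2 + X * X' + X' ^ 2)) (by
      intro X c
      refine le_trans (card_le_card ?_) (K3_quad ζ (ζ * X) (c - ζ * X ^ 2) (Or.inl hζ))
      intro y hy
      simp only [mem_filter, mem_univ, true_and] at hy ⊢
      linear_combination hy) (fun X a => u (T (a, X)) * ψ (ζ * r a))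
    have hR : ∑ X, ∑ a, (u (T (a, X)) * ψ (ζ * r a)) ^ 2 = ∑ i, u i ^ 2 := by
      rw [← hcomp (fun i => u i ^ 2), Fintype.sum_prod_type_right]
      refine sum_congr rfl fun X _ => sum_congr rfl fun a _ => ?_
      rw [mul_pow, sq (ψ _), hsq, mul_one]
    rw [hR] at hb
    refine le_trans (le_of_eq ?_) hb
    rw [← K3_sum (fun X a X' a' => u (T (a, X)) * u (T (a', X')) *
      ψ (γ * (disp (T (a, X)) (T (a', X'))).1 + η * (disp (T (a, X)) (T (a', X'))).2.1
        + ζ * (disp (T (a, X)) (T (a', X'))).2.2))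
      (fun X X' a => u (T (a, X)) * ψ (ζ * r a) * ψ (ζ * (X ^ 2 + X * X' + X' ^ 2) * a))]
    · rw [← hcomp, Fintype.sum_prod_type_right]
      refine sum_congr rfl fun X _ => sum_congr rfl fun a _ => ?_
      rw [← hcomp, Fintype.sum_prod_type_right]
    · intro X a X' a'
      have e : γ * (disp (T (a, X)) (T (a', X'))).1 + η * (disp (T (a, X)) (T (a', X'))).2.1
          + ζ * (disp (T (a, X)) (T (a', X'))).2.2 =
          (ζ * r a + ζ * (X ^ 2 + X * X' + X' ^ 2) * a) +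
          (ζ * r a' + ζ * (X' ^ 2 + X' * X + X ^ 2) * a') := by
        simp only [disp, hT, hr]
        rw [hη, hγ]
        linear_combination ζ * (2 * σ ^ 2 * a + 2 * σ ^ 2 * a' + 2 * σ * τ * a ^ 2 +
          5 * σ * τ * a * a' + 2 * σ * τ * a' ^ 2 + 2 * σ * a * X + 2 * σ * a * X' +
          2 * σ * a' * X + 2 * σ * a' * X' + 2 * τ ^ 2 * a ^ 2 * a' + 2 * τ ^ 2 * a * a' ^ 2 +
          τ * a ^ 2 * X + τ * a ^ 2 * X' + 2 * τ * a * a' * X + 2 * τ * a * a' * X' +
          τ * a' ^ 2 * X + τ * a' ^ 2 * X') * h2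
      rw [e, hadd, hadd, hadd]
      ring


theorem kernel_bound (ψ : F → ℝ) (hadd : ∀ x y, ψ (x + y) = ψ x * ψ y)
    (hsq : ∀ x, ψ x * ψ x = 1)
    (hsum : ∀ c : F, c ≠ 0 → ∑ x, ψ (c * x) = 0) [CharP F 2]
    (z : F × F → F × F × F → ℝ) (h0 : ∑ i, ∑ v, z i v = 0) :
    ∑ i, ∑ j, ∑ v, z i v * z j (v + disp i j)
      ≤ 2 * (Fintype.card F : ℝ) * ∑ i, ∑ v, z i v ^ 2 := by
  have hq : (0 : ℝ) < (Fintype.card F : ℝ) ^ 3 := by
    have : 0 < Fintype.card F := Fintype.card_pos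
    positivity
  refine le_of_mul_le_mul_left ?_ hq
  have hL : (Fintype.card F : ℝ) ^ 3 * ∑ i, ∑ j, ∑ v, z i v * z j (v + disp i j) =
      ∑ ξ : F × F × F, ∑ i, ∑ j, (∑ w : F × F × F, z i w * K1_ch ψ ξ w) *
          (∑ w : F × F × F, z j w * K1_ch ψ ξ w) * K1_ch ψ ξ (disp i j) := by
    rw [Finset.mul_sum, Finset.sum_comm]
    refine Finset.sum_congr rfl fun i _ => ?_
    rw [Finset.mul_sum, Finset.sum_comm]
    refine Finset.sum_congr rfl fun j _ => ?_
    exact K1_corr ψ hadd hsq hsum (z i) (z j) (disp i j)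
  have hR : (Fintype.card F : ℝ) ^ 3 * (2 * (Fintype.card F : ℝ) * ∑ i, ∑ v, z i v ^ 2) =
      ∑ ξ : F × F × F, 2 * (Fintype.card F : ℝ) *
        ∑ i, (∑ w : F × F × F, z i w * K1_ch ψ ξ w) ^ 2 := by
    have hc : ∑ ξ : F × F × F, ∑ i, (∑ w : F × F × F, z i w * K1_ch ψ ξ w) ^ 2 =
        ∑ i, ∑ ξ : F × F × F, (∑ w : F × F × F, z i w * K1_ch ψ ξ w) ^ 2 := Finset.sum_comm
    rw [← Finset.mul_sum, hc]
    have h1 : ∀ i, ∑ ξ : F × F × F, (∑ w : F × F × F, z i w * K1_ch ψ ξ w) ^ 2 =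
        (Fintype.card F : ℝ) ^ 3 * ∑ v, z i v ^ 2 := by
      intro i
      have h2 := K1_corr ψ hadd hsq hsum (z i) (z i) 0
      have h3 : ∀ ξ : F × F × F, K1_ch ψ ξ 0 = 1 := by
        intro ξ
        unfold K1_ch
        simp only [Prod.fst_zero, Prod.snd_zero, mul_zero, add_zero]
        exact K1_psi_zero ψ hadd hsq
      simp only [add_zero, h3, mul_one] at h2
      simp only [pow_two]
      exact h2.symm
    simp only [h1]
    rw [← Finset.mul_sum]
    ring
  rw [hL, hR]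
  refine Finset.sum_le_sum fun ξ _ => ?_
  by_cases hξ : ξ = 0
  · subst hξ
    have h3 : ∀ w : F × F × F, K1_ch ψ 0 w = 1 := by
      intro w
      unfold K1_ch
      simp only [Prod.fst_zero, Prod.snd_zero, zero_mul, add_zero]
      exact K1_psi_zero ψ hadd hsq
    simp only [h3, mul_one]
    have h4 : ∑ i, ∑ j, (∑ w, z i w) * (∑ w, z j w) = 0 := by
      have h5 : ∀ i, ∑ j, (∑ w, z i w) * (∑ w, z j w) = 0 := by
        intro i
        rw [← Finset.mul_sum, h0, mul_zero]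
      simp only [h5, Finset.sum_const_zero]
    rw [h4]
    have : (0 : ℝ) ≤ (Fintype.card F : ℝ) := Nat.cast_nonneg _
    exact mul_nonneg (mul_nonneg zero_le_two this) (Finset.sum_nonneg fun i _ => sq_nonneg _)
  · exact freq_bound ψ hadd hsq hsum ξ hξ (fun i => ∑ w : F × F × F, z i w * K1_ch ψ ξ w)

end Pool.Agent.FCE.T4
end

section

set_option autoImplicit false

/-!
Coordinates on the cosets of the subgroups `U_a` (MP_fce80c_co).
-/

namespace Pool.Agent.FCE.T4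

open Finset

variable {F : Type} [Field F] [Fintype F] [DecidableEq F] [CharP F 2]

/-- First two invariants `(a, x)` of the coset `h U_a`. -/
def ix (a : F) (h : Hx F) : F × F := (a, h.b + a * h.k)

/-- The other invariants `(y, Z, w)` of the coset `h U_a`. -/
def iv (a : F) (h : Hx F) : F × F × F :=
  (h.c + a ^ 2 * h.k,
    (h.d + a * h.c + a ^ 2 * h.b + a ^ 3 * h.k) + a * (h.c + a ^ 2 * h.k),
    h.e + a * h.b ^ 2 + a ^ 2 * h.b * h.k + a ^ 3 * h.k ^ 2)

/-- The function on coset coordinates. -/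
def zeta (z : F → Hx F → ℝ) (i : F × F) (v : F × F × F) : ℝ :=
  z i.1 ⟨0, i.2, v.1, v.2.1 + i.1 ^ 2 * i.2, v.2.2 + i.1 * i.2 ^ 2⟩

theorem zeta_eq (z : F → Hx F → ℝ) (hz : ∀ a s h, z a (h * g a s) = z a h) (a : F) (h : Hx F) :
    z a h = zeta z (ix a h) (iv a h) := by
  have h1 : z a h = z a (h * g a h.k) := (hz a h.k h).symm
  rw [h1]
  unfold zeta
  have h2 : h * g a h.k = ⟨0, (ix a h).2, (iv a h).1, (iv a h).2.1 + (ix a h).1 ^ 2 * (ix a h).2,
      (iv a h).2.2 + (ix a h).1 * (ix a h).2 ^ 2⟩ := by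
    obtain ⟨k, b, c, d, e⟩ := h
    ext
    · simp only [mul_k, g_k]
      grind
    · simp only [mul_b, g_b, ix]
      grind
    · simp only [mul_c, g_c, iv]
      grind
    · simp only [mul_d, g_d, iv, ix]
      grind
    · simp only [mul_e, g_d, g_c, g_e, iv, ix]
      grind
  rw [h2]
  rfl

/-- The coordinates of one coset. -/
def C1_e (a : F) : Hx F ≃ F × F × (F × F × F) where
  toFun h := (h.k, (ix a h).2, iv a h)
  invFun p :=
    ⟨p.1, p.2.1 + a * p.1, p.2.2.1 + a ^ 2 * p.1,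
      p.2.2.2.1 + a * p.2.2.1 + a * (p.2.2.1 + a ^ 2 * p.1) + a ^ 2 * (p.2.1 + a * p.1) + a ^ 3 * p.1,
      p.2.2.2.2 + a * (p.2.1 + a * p.1) ^ 2 + a ^ 2 * (p.2.1 + a * p.1) * p.1 + a ^ 3 * p.1 ^ 2⟩
  left_inv h := by
    obtain ⟨k, b, c, d, e⟩ := h
    simp only [ix, iv, Hx.mk.injEq]
    refine ⟨trivial, ?_, ?_, ?_, ?_⟩ <;> grind
  right_inv p := by
    obtain ⟨k, x, y, Z, w⟩ := p
    simp only [ix, iv, Prod.mk.injEq]
    refine ⟨trivial, ?_, ?_, ?_, ?_⟩ <;> grind

/-- The coordinates of two cosets. -/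
def C1_e2 (a a' : F) (hne : a ≠ a') : Hx F ≃ F × F × (F × F × F) where
  toFun h := ((ix a h).2, (ix a' h).2, iv a h)
  invFun p := (C1_e a).symm ((p.1 + p.2.1) / (a + a'), p.1, p.2.2)
  left_inv h := by
    have h0 : a + a' ≠ 0 := fun h => hne (CharTwo.add_eq_zero.1 h)
    have h1 : ((ix a h).2 + (ix a' h).2) / (a + a') = h.k := by
      rw [div_eq_iff h0]
      simp only [ix]
      grind
    show (C1_e a).symm (((ix a h).2 + (ix a' h).2) / (a + a'), (ix a h).2, iv a h) = h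
    rw [h1]
    exact (C1_e a).symm_apply_apply h
  right_inv p := by
    have h0 : a + a' ≠ 0 := fun h => hne (CharTwo.add_eq_zero.1 h)
    obtain ⟨x, x', v⟩ := p
    obtain ⟨k, hk⟩ : ∃ k, k = (x + x') / (a + a') := ⟨_, rfl⟩
    have hk2 : k * (a + a') = x + x' := by rw [hk, div_mul_cancel₀ _ h0]
    have h3 := (C1_e a).apply_symm_apply (k, x, v)
    obtain ⟨h, hh⟩ : ∃ h, h = (C1_e a).symm (k, x, v) := ⟨_, rfl⟩
    rw [← hh] at h3
    have h4 : h.k = k := congrArg Prod.fst h3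
    have h5 : (ix a h).2 = x := congrArg (fun q => q.2.1) h3
    have h6 : iv a h = v := congrArg (fun q => q.2.2) h3
    have h7 : (ix a' h).2 = x' := by
      have h8 : h.b + a * h.k = x := h5
      show h.b + a' * h.k = x'
      rw [h4] at h8 ⊢
      grind
    show ((ix a ((C1_e a).symm ((x + x') / (a + a'), x, v))).2,
      (ix a' ((C1_e a).symm ((x + x') / (a + a'), x, v))).2,
      iv a ((C1_e a).symm ((x + x') / (a + a'), x, v))) = (x, x', v)
    rw [← hk, ← hh, h5, h7, h6]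

omit [Fintype F] [DecidableEq F] in
theorem C1_iv (a a' : F) (h : Hx F) : iv a' h = iv a h + disp (ix a h) (ix a' h) := by
  obtain ⟨k, b, c, d, e⟩ := h
  simp only [ix, iv, disp, Prod.mk_add_mk, Prod.mk.injEq]
  refine ⟨?_, ?_, ?_⟩ <;> grind

/-- Sums over the group in coset coordinates. -/
theorem sum_coset (a : F) (φ : F × F → F × F × F → ℝ) :
    ∑ h : Hx F, φ (ix a h) (iv a h)
      = (Fintype.card F : ℝ) * ∑ x : F, ∑ v : F × F × F, φ (a, x) v := by
  have h1 : ∑ h : Hx F, φ (ix a h) (iv a h) = ∑ p : F × F × (F × F × F), φ (a, p.2.1) p.2.2 :=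
    Fintype.sum_equiv (C1_e a) _ _ fun h => rfl
  rw [h1, Fintype.sum_prod_type]
  simp only [Fintype.sum_prod_type (f := fun q : F × (F × F × F) => φ (a, q.1) q.2)]
  rw [Finset.sum_const, Finset.card_univ, nsmul_eq_mul]

/-- Sums over the group in the coordinates of two cosets with `a ≠ a'`. -/
theorem sum_two (a a' : F) (hne : a ≠ a') (φ : F × F → F × F × F → ℝ) :
    ∑ h : Hx F, φ (ix a h) (iv a h) * φ (ix a' h) (iv a' h)
      = ∑ x : F, ∑ x' : F, ∑ v : F × F × F, φ (a, x) v * φ (a', x') (v + disp (a, x) (a', x')) := by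
  have h1 : ∑ h : Hx F, φ (ix a h) (iv a h) * φ (ix a' h) (iv a' h) =
      ∑ p : F × F × (F × F × F), φ (a, p.1) p.2.2 * φ (a', p.2.1) (p.2.2 + disp (a, p.1) (a', p.2.1)) := by
    refine Fintype.sum_equiv (C1_e2 a a' hne) _ _ fun h => ?_
    rw [C1_iv a a' h]
    rfl
  rw [h1, Fintype.sum_prod_type]
  refine Finset.sum_congr rfl fun x _ => ?_
  rw [Fintype.sum_prod_type]

/-- `‖∑ z_a‖² ≤ 3 ∑ ‖z_a‖²` for functions constant on cosets with sum zero. -/
theorem coset_bound (ψ : F → ℝ) (hadd : ∀ x y, ψ (x + y) = ψ x * ψ y)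
    (hsq : ∀ x, ψ x * ψ x = 1)
    (hsum : ∀ c : F, c ≠ 0 → ∑ x, ψ (c * x) = 0)
    (z : F → Hx F → ℝ) (hz : ∀ a s h, z a (h * g a s) = z a h) (h0 : ∀ a, ∑ h, z a h = 0) :
    ∑ h, (∑ a, z a h) ^ 2 ≤ 3 * ∑ a, ∑ h, z a h ^ 2 := by
  have hq : (0 : ℝ) < (Fintype.card F : ℝ) := by exact_mod_cast Fintype.card_pos
  have e1 : ∑ h, (∑ a, z a h) ^ 2 = ∑ a, ∑ a', ∑ h, z a h * z a' h := by
    have h1 : ∀ h : Hx F, (∑ a, z a h) ^ 2 = ∑ a, ∑ a', z a h * z a' h := by
      intro h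
      rw [sq, Finset.sum_mul_sum]
    rw [Finset.sum_congr rfl fun h _ => h1 h, Finset.sum_comm]
    exact Finset.sum_congr rfl fun a _ => Finset.sum_comm
  have e2 : ∀ a a' : F, ∑ h, z a h * z a' h ≤ (if a = a' then ∑ h, z a h ^ 2 else 0) +
      ∑ x : F, ∑ x' : F, ∑ v : F × F × F,
        zeta z (a, x) v * zeta z (a', x') (v + disp (a, x) (a', x')) := by
    intro a a'
    by_cases h : a = a'
    · subst h
      rw [if_pos rfl]
      have h1 : ∑ h, z a h * z a h = ∑ h, z a h ^ 2 :=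
        Finset.sum_congr rfl fun h _ => (sq _).symm
      have h2 : ∑ x : F, ∑ x' : F, ∑ v : F × F × F,
          zeta z (a, x) v * zeta z (a, x') (v + disp (a, x) (a, x')) =
          ∑ v : F × F × F, (∑ x, zeta z (a, x) v) ^ 2 := by
        have h3 : ∀ v : F × F × F, (∑ x, zeta z (a, x) v) ^ 2 =
            ∑ x, ∑ x', zeta z (a, x) v * zeta z (a, x') v := by
          intro v
          rw [sq, Finset.sum_mul_sum]
        have h4 : ∀ x x' : F, disp (a, x) (a, x') = 0 := by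
          intro x x'
          simp [disp, CharTwo.add_self_eq_zero]
        calc ∑ x : F, ∑ x' : F, ∑ v : F × F × F,
            zeta z (a, x) v * zeta z (a, x') (v + disp (a, x) (a, x'))
            = ∑ x : F, ∑ x' : F, ∑ v : F × F × F, zeta z (a, x) v * zeta z (a, x') v := by
              simp only [h4, add_zero]
          _ = ∑ x : F, ∑ v : F × F × F, ∑ x' : F, zeta z (a, x) v * zeta z (a, x') v :=
              Finset.sum_congr rfl fun x _ => Finset.sum_comm
          _ = ∑ v : F × F × F, ∑ x : F, ∑ x' : F, zeta z (a, x) v * zeta z (a, x') v :=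
              Finset.sum_comm
          _ = ∑ v : F × F × F, (∑ x, zeta z (a, x) v) ^ 2 :=
              Finset.sum_congr rfl fun v _ => (h3 v).symm
      rw [h1, h2]
      have h5 : 0 ≤ ∑ v : F × F × F, (∑ x, zeta z (a, x) v) ^ 2 :=
        Finset.sum_nonneg fun v _ => sq_nonneg _
      linarith
    · rw [if_neg h, zero_add]
      refine le_of_eq ?_
      rw [← sum_two a a' h (zeta z)]
      refine Finset.sum_congr rfl fun h _ => ?_
      rw [← zeta_eq z hz, ← zeta_eq z hz]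
  have e3 : ∑ a, ∑ a', (if a = a' then ∑ h, z a h ^ 2 else 0) = ∑ a, ∑ h, z a h ^ 2 := by
    refine Finset.sum_congr rfl fun a _ => ?_
    rw [Finset.sum_ite_eq]
    simp
  have e4 : ∑ a : F, ∑ a' : F, ∑ x : F, ∑ x' : F, ∑ v : F × F × F,
        zeta z (a, x) v * zeta z (a', x') (v + disp (a, x) (a', x')) =
      ∑ i : F × F, ∑ j : F × F, ∑ v, zeta z i v * zeta z j (v + disp i j) := by
    rw [Fintype.sum_prod_type]
    refine Finset.sum_congr rfl fun a _ => ?_
    rw [Finset.sum_comm]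
    refine Finset.sum_congr rfl fun x _ => ?_
    rw [Fintype.sum_prod_type]
  have e5 : ∀ a : F, ∑ h, z a h ^ 2 =
      (Fintype.card F : ℝ) * ∑ x : F, ∑ v : F × F × F, zeta z (a, x) v ^ 2 := by
    intro a
    rw [← sum_coset a (fun i v => zeta z i v ^ 2)]
    refine Finset.sum_congr rfl fun h _ => ?_
    rw [← zeta_eq z hz]
  have e6 : ∑ i : F × F, ∑ v, zeta z i v = 0 := by
    rw [Fintype.sum_prod_type]
    refine Finset.sum_eq_zero fun a _ => ?_
    have h1 := sum_coset a (fun i v => zeta z i v)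
    have h2 : ∑ h : Hx F, zeta z (ix a h) (iv a h) = 0 := by
      rw [← h0 a]
      refine Finset.sum_congr rfl fun h _ => ?_
      rw [← zeta_eq z hz]
    rw [h2] at h1
    rcases mul_eq_zero.1 h1.symm with h3 | h3
    · exact absurd h3 hq.ne'
    · exact h3
  have e7 := kernel_bound ψ hadd hsq hsum (zeta z) e6
  have e8 : (Fintype.card F : ℝ) * ∑ i : F × F, ∑ v, zeta z i v ^ 2 = ∑ a, ∑ h, z a h ^ 2 := by
    rw [Fintype.sum_prod_type, Finset.mul_sum]
    exact Finset.sum_congr rfl fun a _ => (e5 a).symm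
  calc ∑ h, (∑ a, z a h) ^ 2 = ∑ a, ∑ a', ∑ h, z a h * z a' h := e1
    _ ≤ ∑ a, ∑ a', ((if a = a' then ∑ h, z a h ^ 2 else 0) +
        ∑ x : F, ∑ x' : F, ∑ v : F × F × F,
          zeta z (a, x) v * zeta z (a', x') (v + disp (a, x) (a', x'))) :=
        Finset.sum_le_sum fun a _ => Finset.sum_le_sum fun a' _ => e2 a a'
    _ = ∑ a, ∑ h, z a h ^ 2 +
        ∑ i : F × F, ∑ j : F × F, ∑ v, zeta z i v * zeta z j (v + disp i j) := by
        rw [← e3, ← e4, ← Finset.sum_add_distrib]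
        refine Finset.sum_congr rfl fun a _ => ?_
        rw [← Finset.sum_add_distrib]
    _ ≤ ∑ a, ∑ h, z a h ^ 2 + 2 * (Fintype.card F : ℝ) * ∑ i : F × F, ∑ v, zeta z i v ^ 2 := by
        linarith [e7]
    _ = 3 * ∑ a, ∑ h, z a h ^ 2 := by
        rw [mul_assoc, e8]
        ring

end Pool.Agent.FCE.T4
end

section

set_option autoImplicit false

/-!
The eigenvalue bound (MP_fce80c_co).
-/

namespace Pool.Agent.FCE.T4

open Finset

variable {F : Type} [Field F] [Fintype F] [DecidableEq F] [CharP F 2]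

theorem P_const (x : Hx F → ℝ) (a s : F) (h : Hx F) : P x a (h * g a s) = P x a h := by
  unfold P
  have h1 : ∀ t, x (h * g a s * g a t) = x (h * g a (s + t)) := by
    intro t
    rw [mul_assoc, g_mul_g]
  simp_rw [h1]
  exact Equiv.sum_comp (Equiv.addLeft s) (fun t => x (h * g a t))

theorem sum_mul_right (y : Hx F → ℝ) (u : Hx F) : ∑ h, y (h * u) = ∑ h, y h :=
  Equiv.sum_comp (Equiv.mulRight u) y

theorem sum_P (x : Hx F → ℝ) (a : F) : ∑ h, P x a h = (Fintype.card F : ℝ) * ∑ h, x h := by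
  unfold P
  rw [Finset.sum_comm]
  simp_rw [sum_mul_right]
  rw [Finset.sum_const, Finset.card_univ, nsmul_eq_mul]

theorem sum_P_sq (x : Hx F → ℝ) (a : F) :
    ∑ h, P x a h ^ 2 = (Fintype.card F : ℝ) * ∑ h, x h * P x a h := by
  have h1 : ∀ h, P x a h ^ 2 = ∑ s, x (h * g a s) * P x a (h * g a s) := by
    intro h
    simp_rw [P_const]
    rw [← Finset.sum_mul, pow_two]
    rfl
  simp_rw [h1]
  rw [Finset.sum_comm]
  have h2 : ∀ s, ∑ h, x (h * g a s) * P x a (h * g a s) = ∑ h, x h * P x a h := fun s =>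
    sum_mul_right (fun h => x h * P x a h) (g a s)
  simp_rw [h2]
  rw [Finset.sum_const, Finset.card_univ, nsmul_eq_mul]

/-- The eigenvalue bound. -/
theorem spectral (ψ : F → ℝ) (hadd : ∀ x y, ψ (x + y) = ψ x * ψ y)
    (hsq : ∀ x, ψ x * ψ x = 1)
    (hsum : ∀ c : F, c ≠ 0 → ∑ x, ψ (c * x) = 0)
    (ε : F → ℝ) (hε : ∀ a, ε a = 1 ∨ ε a = -1) (hε0 : ∑ a, ε a = 0)
    (x : Hx F → ℝ) (hx : ∑ h, x h = 0) :
    |OPG.bil (graph ε) x x| ≤ 9 / 2 * (Fintype.card F : ℝ) ^ 2 * ∑ h, x h ^ 2 := by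
  set q : ℝ := (Fintype.card F : ℝ) with hq
  set N : ℝ := ∑ h, x h ^ 2 with hN
  set S0 : ℝ := ∑ a, ∑ h, P x a h ^ 2 with hS0
  set T : ℝ := ∑ h, x h * ∑ a, P x a h with hT
  have hN0 : 0 ≤ N := Finset.sum_nonneg fun _ _ => sq_nonneg _
  have hS00 : 0 ≤ S0 := Finset.sum_nonneg fun _ _ => Finset.sum_nonneg fun _ _ => sq_nonneg _
  have hS0T : S0 = q * T := by
    rw [hS0, hT]
    simp_rw [sum_P_sq, Finset.mul_sum]
    rw [Finset.sum_comm]
  have hM : ∑ h, (∑ a, P x a h) ^ 2 ≤ 3 * S0 := by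
    apply coset_bound ψ hadd hsq hsum
    · intro a s h
      exact P_const x a s h
    · intro a
      rw [sum_P, hx, mul_zero]
  have hS : ∑ h, (∑ a, ε a * P x a h) ^ 2 ≤ 3 * S0 := by
    have h1 := coset_bound ψ hadd hsq hsum (fun a h => ε a * P x a h)
      (by
        intro a s h
        beta_reduce
        rw [P_const])
      (by
        intro a
        beta_reduce
        rw [← Finset.mul_sum, sum_P, hx, mul_zero, mul_zero])
    refine h1.trans (le_of_eq ?_)
    congr 1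
    apply Finset.sum_congr rfl
    intro a _
    apply Finset.sum_congr rfl
    intro h _
    rcases hε a with h | h <;> rw [h] <;> ring
  have hCS : T ^ 2 ≤ N * ∑ h, (∑ a, P x a h) ^ 2 := by
    rw [hT, hN]
    exact Finset.sum_mul_sq_le_sq_mul_sq _ _ _
  have hS0le : S0 ≤ 3 * q ^ 2 * N := by
    rcases hS00.eq_or_lt with h0 | h0
    · rw [← h0]
      positivity
    · have h1 : S0 * S0 ≤ (3 * q ^ 2 * N) * S0 := by
        calc S0 * S0 = q ^ 2 * T ^ 2 := by rw [hS0T]; ring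
          _ ≤ q ^ 2 * (N * (3 * S0)) := by
              apply mul_le_mul_of_nonneg_left _ (sq_nonneg q)
              exact hCS.trans (mul_le_mul_of_nonneg_left hM hN0)
          _ = _ := by ring
      exact le_of_mul_le_mul_right h1 h0
  have hA : ∑ h, (∑ a, (P x a h - x h)) ^ 2 ≤ 4 * q ^ 2 * N := by
    have h1 : ∀ h, (∑ a, (P x a h - x h)) ^ 2
        = (∑ a, P x a h) ^ 2 - 2 * q * (x h * ∑ a, P x a h) + q ^ 2 * x h ^ 2 := by
      intro h
      rw [Finset.sum_sub_distrib, Finset.sum_const, Finset.card_univ, nsmul_eq_mul, ← hq]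
      ring
    simp_rw [h1]
    rw [Finset.sum_add_distrib, Finset.sum_sub_distrib, ← Finset.mul_sum, ← Finset.mul_sum,
      ← hT, ← hN]
    have h2 : 2 * q * T = 2 * S0 := by rw [hS0T]; ring
    rw [h2]
    linarith
  have hB : ∑ h, (∑ a, ε a * (P x a h - x h)) ^ 2 ≤ 9 * q ^ 2 * N := by
    have h1 : ∀ h, (∑ a, ε a * (P x a h - x h)) ^ 2 = (∑ a, ε a * P x a h) ^ 2 := by
      intro h
      congr 1
      simp_rw [mul_sub]
      rw [Finset.sum_sub_distrib, ← Finset.sum_mul, hε0]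
      ring
    simp_rw [h1]
    linarith
  have hA0 : 0 ≤ ∑ h, (∑ a, (P x a h - x h)) ^ 2 := Finset.sum_nonneg fun _ _ => sq_nonneg _
  have hB0 : 0 ≤ ∑ h, (∑ a, ε a * (P x a h - x h)) ^ 2 :=
    Finset.sum_nonneg fun _ _ => sq_nonneg _
  have hmain := bil_graph ε hε x
  rw [abs_le]
  have hqN : 0 ≤ q ^ 2 * N := by positivity
  constructor <;> nlinarith

end Pool.Agent.FCE.T4
end
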